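import Mathlib

/-!
# Reflections in finite dimensional representations of `sl_2`
-/

set_option autoImplicit false
set_option linter.unusedSectionVars false

namespace Pool.Agent.Q43.GN

open Module

noncomputable section

variable {W : Type*} [AddCommGroup W] [Module ℂ W]

theorem nilp_of_ad [FiniteDimensional ℂ W] {h x : End ℂ W} {c : ℂ} (hc : c ≠ 0)
    (hx : h * x - x * h = c • x) : IsNilpotent x := by
  by_contra hn
  have hne : ∀ n : ℕ, x ^ n ≠ 0 := fun n h0 => hn ⟨n, h0⟩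
  let ad : End ℂ (End ℂ W) := LinearMap.mulLeft ℂ h - LinearMap.mulRight ℂ h
  have had : ∀ y, ad y = h * y - y * h := fun y => rfl
  have h1 : ∀ n : ℕ, ad (x ^ n) = ((n : ℂ) * c) • x ^ n := by
    intro n
    rw [had]
    induction n with
    | zero => simp
    | succ n ih =>
      have h2 : h * x ^ (n + 1) - x ^ (n + 1) * h =
          (h * x ^ n - x ^ n * h) * x + x ^ n * (h * x - x * h) := by
        rw [pow_succ]
        noncomm_ring
      rw [h2, ih, hx, smul_mul_assoc, mul_smul_comm, ← pow_succ, ← add_smul]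
      congr 1
      push_cast
      ring
  have h2 : ∀ n : ℕ, ad.HasEigenvalue ((n : ℂ) * c) := fun n =>
    Module.End.hasEigenvalue_of_hasEigenvector ⟨Module.End.mem_eigenspace_iff.2 (h1 n), hne n⟩
  have h3 : (Set.range fun n : ℕ => (n : ℂ) * c).Finite :=
    ad.finite_hasEigenvalue.subset (by
      rintro _ ⟨n, rfl⟩
      exact h2 n)
  refine Set.infinite_range_of_injective (fun m n hmn => ?_) h3
  exact Nat.cast_injective (mul_right_cancel₀ hc hmn)

/-- Divided powers. -/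
def dp (a : End ℂ W) (i : ℕ) : End ℂ W := ((i.factorial : ℂ)⁻¹) • a ^ i

theorem dp_zero (a : End ℂ W) : dp a 0 = 1 := by simp [dp]

theorem dp_succ (a : End ℂ W) (i : ℕ) : ((i + 1 : ℕ) : ℂ) • dp a (i + 1) = a * dp a i := by
  unfold dp
  rw [smul_smul, mul_smul_comm, ← pow_succ', Nat.factorial_succ]
  congr 1
  push_cast
  have h1 : (i : ℂ) + 1 ≠ 0 := by exact_mod_cast Nat.succ_ne_zero i
  rw [mul_inv, ← mul_assoc, mul_inv_cancel₀ h1, one_mul]

theorem dp_pow (a b d t : End ℂ W) (h1 : a * b = b * a + d) (h2 : a * d = d * a + (2 : ℂ) • t)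
    (h3 : a * t = t * a) : dp a 1 * b = b * dp a 1 + d * dp a 0 ∧ ∀ i : ℕ,
    dp a (i + 2) * b = b * dp a (i + 2) + d * dp a (i + 1) + t * dp a i := by
  have e1 : dp a 1 = a := by simp [dp]
  have e2 : dp a 1 * b = b * dp a 1 + d * dp a 0 := by rw [e1, dp_zero, mul_one, h1]
  have hda : ∀ i, a * dp a i = dp a i * a := fun i => by
    unfold dp
    rw [mul_smul_comm, smul_mul_assoc, ← pow_succ', ← pow_succ]
  refine ⟨e2, fun i => ?_⟩
  induction i with
  | zero =>
    have h4 : ((2 : ℕ) : ℂ) ≠ 0 := by norm_num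
    have h5 := dp_succ a 1
    apply smul_right_injective _ h4
    change ((2 : ℕ) : ℂ) • (dp a 2 * b) = ((2 : ℕ) : ℂ) • (b * dp a 2 + d * dp a 1 + t * dp a 0)
    rw [← smul_mul_assoc, h5, e1, smul_add, smul_add, ← mul_smul_comm, h5, e1, mul_assoc, h1,
      mul_add, ← mul_assoc, h1, h2, dp_zero, mul_one, add_mul, Nat.cast_ofNat, two_smul,
      two_smul, mul_assoc]
    abel
  | succ i ih =>
    have h4 : ((i + 3 : ℕ) : ℂ) ≠ 0 := by exact_mod_cast Nat.succ_ne_zero (i + 2)
    apply smul_right_injective _ h4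
    change ((i + 3 : ℕ) : ℂ) • (dp a (i + 3) * b) =
      ((i + 3 : ℕ) : ℂ) • (b * dp a (i + 3) + d * dp a (i + 2) + t * dp a (i + 1))
    have h5 := dp_succ a (i + 2)
    have h6 := dp_succ a (i + 1)
    have h7 := dp_succ a i
    rw [← smul_mul_assoc, h5, smul_add, smul_add, ← mul_smul_comm, h5, mul_assoc, ih, mul_add,
      mul_add, ← mul_assoc, ← mul_assoc, ← mul_assoc, h1, h2, h3, add_mul, add_mul,
      mul_assoc b, mul_assoc d, mul_assoc t, ← h6, ← h7, mul_smul_comm, mul_smul_comm,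
      smul_mul_assoc]
    have e4 : ((i + 3 : ℕ) : ℂ) = ((i + 2 : ℕ) : ℂ) + 1 := by push_cast; ring
    have e5 : ((i + 3 : ℕ) : ℂ) = ((i + 1 : ℕ) : ℂ) + 2 := by push_cast; ring
    have e6 : ((i + 3 : ℕ) : ℂ) • (d * dp a (i + 2)) =
        ((i + 2 : ℕ) : ℂ) • (d * dp a (i + 2)) + d * dp a (i + 2) := by
      rw [e4, add_smul, one_smul]
    have e7 : ((i + 3 : ℕ) : ℂ) • (t * dp a (i + 1)) =
        ((i + 1 : ℕ) : ℂ) • (t * dp a (i + 1)) + (2 : ℂ) • (t * dp a (i + 1)) := by
      rw [e5, add_smul]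
    rw [e6, e7]
    have e8 : ((i + 1 + 1 : ℕ) : ℂ) = ((i + 2 : ℕ) : ℂ) := rfl
    rw [e8]
    abel

/-- The exponential. -/
def ex (N : ℕ) (a : End ℂ W) : End ℂ W := ∑ i ∈ Finset.range N, dp a i

theorem dp_big {a : End ℂ W} {N : ℕ} (hN : a ^ N = 0) {i : ℕ} (hi : N ≤ i) : dp a i = 0 := by
  unfold dp
  rw [pow_eq_zero_of_le hi hN, smul_zero]

theorem ex_comm {a b d t : End ℂ W} {N : ℕ} (hN : a ^ N = 0) (h1 : a * b = b * a + d)
    (h2 : a * d = d * a + (2 : ℂ) • t) (h3 : a * t = t * a) :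
    ex (N + 2) a * b = (b + d + t) * ex (N + 2) a := by
  obtain ⟨h4, h5⟩ := dp_pow a b d t h1 h2 h3
  have e1 : ex (N + 2) a = ∑ i ∈ Finset.range N, dp a i := by
    unfold ex
    rw [Finset.sum_range_succ, Finset.sum_range_succ, dp_big hN (le_refl N),
      dp_big hN (Nat.le_succ N), add_zero, add_zero]
  have e2 : ex (N + 2) a = ∑ i ∈ Finset.range (N + 1), dp a i := by
    unfold ex
    rw [Finset.sum_range_succ, dp_big hN (by omega), add_zero]
  have e3 : ex (N + 2) a * b = ∑ i ∈ Finset.range N, dp a (i + 2) * b + dp a 1 * b + dp a 0 * b := by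
    unfold ex
    rw [Finset.sum_range_succ', Finset.sum_range_succ', add_mul, add_mul, Finset.sum_mul]
  have e4 : b * ex (N + 2) a = ∑ i ∈ Finset.range N, b * dp a (i + 2) + b * dp a 1 + b * dp a 0 := by
    unfold ex
    rw [Finset.sum_range_succ', Finset.sum_range_succ', mul_add, mul_add, Finset.mul_sum]
  have e5 : d * ex (N + 2) a = ∑ i ∈ Finset.range N, d * dp a (i + 1) + d * dp a 0 := by
    rw [e2, Finset.sum_range_succ', mul_add, Finset.mul_sum]
  have e6 : t * ex (N + 2) a = ∑ i ∈ Finset.range N, t * dp a i := by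
    rw [e1, Finset.mul_sum]
  rw [add_mul, add_mul, e3, e4, e5, e6, h4]
  simp only [h5, Finset.sum_add_distrib]
  rw [dp_zero, one_mul, mul_one]
  abel

theorem isUnit_ex {a : End ℂ W} {N : ℕ} (hN : a ^ N = 0) : IsUnit (ex (N + 2) a) := by
  have h1 : ex (N + 2) a = 1 + a * ∑ i ∈ Finset.range (N + 1), ((i + 1 : ℕ) : ℂ)⁻¹ • dp a i := by
    unfold ex
    rw [Finset.sum_range_succ', dp_zero, add_comm, Finset.mul_sum]
    congr 1
    refine Finset.sum_congr rfl fun i _ => ?_
    have h2 : ((i + 1 : ℕ) : ℂ) ≠ 0 := by exact_mod_cast Nat.succ_ne_zero i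
    rw [mul_smul_comm, ← dp_succ, smul_smul, inv_mul_cancel₀ h2, one_smul]
  rw [h1]
  have h2 : Commute a (∑ i ∈ Finset.range (N + 1), ((i + 1 : ℕ) : ℂ)⁻¹ • dp a i) := by
    refine Commute.sum_right _ _ _ fun i _ => Commute.smul_right ?_ _
    unfold dp
    exact Commute.smul_right (Commute.pow_right (Commute.refl a) i) _
  have h3 : IsNilpotent (a * ∑ i ∈ Finset.range (N + 1), ((i + 1 : ℕ) : ℂ)⁻¹ • dp a i) :=
    h2.isNilpotent_mul_right ⟨N, hN⟩
  exact h3.isUnit_one_add

theorem ex_commute {a y : End ℂ W} (h : a * y = y * a) (N : ℕ) : ex N a * y = y * ex N a := by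
  have h1 : Commute a y := h
  unfold ex
  exact Commute.sum_left _ _ _ fun i _ => by
    unfold dp
    exact Commute.smul_left (h1.pow_left i) _

/-- **The reflection.** -/
theorem exists_refl [FiniteDimensional ℂ W] {e h f : End ℂ W} (he : h * e - e * h = (2 : ℂ) • e)
    (hf : h * f - f * h = (-2 : ℂ) • f) (hef : e * f - f * e = h) :
    ∃ s : End ℂ W, IsUnit s ∧ s * h = -(h * s) ∧
      ∀ y, e * y = y * e → f * y = y * f → s * y = y * s := by
  obtain ⟨N, hN⟩ := nilp_of_ad (by norm_num) he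
  obtain ⟨M, hM'⟩ := nilp_of_ad (by norm_num) hf
  have hM : (-f) ^ M = 0 := by
    rw [neg_pow, hM', mul_zero]
  have h1 : ex (N + 2) e * h = (h + (-2 : ℂ) • e + 0) * ex (N + 2) e := by
    refine ex_comm hN ?_ ?_ ?_
    · rw [neg_smul, ← he]
      abel
    · rw [smul_zero, add_zero, mul_smul_comm, smul_mul_assoc]
    · rw [mul_zero, zero_mul]
  have h2 : ex (M + 2) (-f) * h = (h + (-2 : ℂ) • f + 0) * ex (M + 2) (-f) := by
    refine ex_comm hM ?_ ?_ ?_
    · rw [← hf]
      noncomm_ring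
    · rw [smul_zero, add_zero, mul_smul_comm, smul_mul_assoc]
      noncomm_ring
    · rw [mul_zero, zero_mul]
  have h3 : ex (M + 2) (-f) * e = (e + h + -f) * ex (M + 2) (-f) := by
    refine ex_comm hM ?_ ?_ ?_
    · rw [← hef]
      noncomm_ring
    · have h4 : (2 : ℂ) • (-f) = h * f - f * h := by
        rw [hf]
        module
      rw [h4]
      noncomm_ring
    · rfl
  refine ⟨ex (N + 2) e * ex (M + 2) (-f) * ex (N + 2) e,
    ((isUnit_ex hN).mul (isUnit_ex hM)).mul (isUnit_ex hN), ?_, fun y hy1 hy2 => ?_⟩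
  · rw [add_zero] at h1 h2
    rw [mul_assoc, h1]
    have h4 : ex (M + 2) (-f) * (h + (-2 : ℂ) • e) =
        (-h - (2 : ℂ) • e) * ex (M + 2) (-f) := by
      rw [mul_add, mul_smul_comm, h2, h3]
      rw [← smul_mul_assoc, ← add_mul]
      congr 1
      module
    have h5 : ex (N + 2) e * e = e * ex (N + 2) e := ex_commute rfl _
    have h6 : ex (N + 2) e * (-h - (2 : ℂ) • e) = -h * ex (N + 2) e := by
      rw [mul_sub, mul_neg, h1, mul_smul_comm, h5, ← smul_mul_assoc, ← neg_mul, ← sub_mul]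
      congr 1
      module
    calc ex (N + 2) e * ex (M + 2) (-f) * ((h + (-2 : ℂ) • e) * ex (N + 2) e)
        = ex (N + 2) e * (ex (M + 2) (-f) * (h + (-2 : ℂ) • e)) * ex (N + 2) e := by
          simp only [mul_assoc]
      _ = ex (N + 2) e * (-h - (2 : ℂ) • e) * ex (M + 2) (-f) * ex (N + 2) e := by
          rw [h4]
          simp only [mul_assoc]
      _ = _ := by
          rw [h6]
          simp only [mul_assoc, neg_mul]
  · have h4 := ex_commute hy1 (N + 2)
    have h5 : ex (M + 2) (-f) * y = y * ex (M + 2) (-f) :=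
      ex_commute (by rw [neg_mul, mul_neg, hy2]) _
    rw [mul_assoc, h4, ← mul_assoc, mul_assoc (ex (N + 2) e), h5, ← mul_assoc, h4]
    simp only [mul_assoc]

end

end Pool.Agent.Q43.GN
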