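import Mathlib

/-!
# Joint eigenvectors, and the counting of weights
-/

set_option autoImplicit false
set_option linter.unusedSectionVars false

namespace Pool.Agent.Q43.GN

open Module

noncomputable section

section comm

variable {W : Type*} [AddCommGroup W] [Module ℂ W] [FiniteDimensional ℂ W] {ι : Type*}

/-- Commuting operators have a common eigenvector in a stable subspace. -/
theorem exists_joint [Finite ι] (F : ι → End ℂ W) (hF : ∀ i j, F i * F j = F j * F i)
    (U : Submodule ℂ W) (hU : U ≠ ⊥) (hst : ∀ i, ∀ u ∈ U, F i u ∈ U) :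
    ∃ w ∈ U, w ≠ 0 ∧ ∃ c : ι → ℂ, ∀ i, F i w = c i • w := by
  classical
  have _ : Fintype ι := Fintype.ofFinite ι
  have key : ∀ s : Finset ι, ∃ U' : Submodule ℂ W, U' ≤ U ∧ U' ≠ ⊥ ∧ (∀ i, ∀ u ∈ U', F i u ∈ U') ∧
      ∀ i ∈ s, ∃ c : ℂ, ∀ u ∈ U', F i u = c • u := by
    intro s
    induction s using Finset.induction_on with
    | empty => exact ⟨U, le_rfl, hU, hst, fun i hi => absurd hi (Finset.notMem_empty i)⟩
    | insert i s _ ih =>
      obtain ⟨U', h1, h2, h3, h4⟩ := ih
      have : Nontrivial U' := Submodule.nontrivial_iff_ne_bot.2 h2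
      obtain ⟨c, hc⟩ := Module.End.exists_eigenvalue ((F i).restrict (h3 i))
      obtain ⟨u, hu⟩ := hc.exists_hasEigenvector
      have hu1 := Module.End.mem_eigenspace_iff.1 hu.1
      have hu2 : F i u.1 = c • u.1 := congrArg Subtype.val hu1
      refine ⟨U' ⊓ (F i).eigenspace c, inf_le_left.trans h1, ?_, ?_, ?_⟩
      · rw [Submodule.ne_bot_iff]
        exact ⟨u.1, ⟨u.2, Module.End.mem_eigenspace_iff.2 hu2⟩, fun h0 => hu.2 (Subtype.ext h0)⟩
      · rintro j v ⟨hv1, hv2⟩
        refine ⟨h3 j v hv1, Module.End.mem_eigenspace_iff.2 ?_⟩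
        have h5 : F i (F j v) = F j (F i v) := by
          have h6 := congrArg (fun f : End ℂ W => f v) (hF i j)
          exact h6
        rw [h5, Module.End.mem_eigenspace_iff.1 hv2, map_smul]
      · intro j hj
        rcases Finset.mem_insert.1 hj with rfl | hj
        · exact ⟨c, fun v hv => Module.End.mem_eigenspace_iff.1 hv.2⟩
        · obtain ⟨c', hc'⟩ := h4 j hj
          exact ⟨c', fun v hv => hc' v hv.1⟩
  obtain ⟨U', h1, h2, -, h4⟩ := key Finset.univ
  obtain ⟨w, hw, hw0⟩ := (Submodule.ne_bot_iff _).1 h2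
  choose c hc using fun i => h4 i (Finset.mem_univ i)
  exact ⟨w, h1 hw, hw0, c, fun i => hc i w hw⟩

/-- The dimension of a joint eigenspace. -/
theorem card_le_of_weights {p : ℕ} (h : Fin p → End ℂ W) (hh : ∀ i j, h i * h j = h j * h i)
    (f : Fin p → Fin p → ℂ) (hf : Function.Injective f) (w : Fin p → W) (hw0 : ∀ l, w l ≠ 0)
    (hw : ∀ l i, h i (w l) = f l i • w l) (E : Submodule ℂ W) (hE : ∀ l, w l ∈ E) :
    p ≤ finrank ℂ E := by
  have h1 := Module.End.independent_iInf_maxGenEigenspace_of_forall_mapsTo h (fun i j φ =>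
    Module.End.mapsTo_maxGenEigenspace_of_comm (hh j i) φ)
  have h2 : LinearIndependent ℂ w := by
    refine (h1.comp hf).linearIndependent _ (fun l => ?_) hw0
    rw [Function.comp_apply, Submodule.mem_iInf]
    intro i
    exact Module.End.mem_maxGenEigenspace _ _ _ |>.2 ⟨1, by
      rw [pow_one, LinearMap.sub_apply, hw, LinearMap.smul_apply, Module.End.one_apply, sub_self]⟩
  have h3 : LinearIndependent ℂ (fun l => (⟨w l, hE l⟩ : E)) :=
    LinearIndependent.of_comp E.subtype h2
  have h4 := h3.fintype_card_le_finrank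
  rwa [Fintype.card_fin] at h4

end comm

section comb

variable {p : ℕ} {P : (Fin p → ℂ) → Prop}

theorem sum_flip (ν : Fin p → ℂ) (k : Fin p) :
    ∑ i, Function.update ν k (-ν k) i = ∑ i, ν i - 2 * ν k := by
  classical
  rw [Finset.sum_update_of_mem (Finset.mem_univ k), Finset.sdiff_singleton_eq_erase]
  have h1 := Finset.add_sum_erase Finset.univ ν (Finset.mem_univ k)
  linear_combination h1

/-- The choice of the signs. -/
theorem exists_signs (hP : ∀ ν k, P ν → P (Function.update ν k (-ν k))) (hp : 3 ≤ p)
    {ν : Fin p → ℂ} (hν : P ν) (h0 : ν ≠ 0) (μ : ℂ) :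
    ∃ ν' : Fin p → ℂ, P ν' ∧ (∃ i j, ν' i ≠ ν' j) ∧ μ + ∑ i, ν' i ≠ 0 := by
  obtain ⟨i, hi⟩ := Function.ne_iff.1 h0
  have hi : ν i ≠ 0 := hi
  have key : ∀ (ν₁ : Fin p → ℂ) (k a b : Fin p), P ν₁ → ν₁ k ≠ 0 → ν₁ a ≠ ν₁ b →
      Function.update ν₁ k (-ν₁ k) a ≠ Function.update ν₁ k (-ν₁ k) b →
      ∃ ν' : Fin p → ℂ, P ν' ∧ (∃ i j, ν' i ≠ ν' j) ∧ μ + ∑ i, ν' i ≠ 0 := by
    intro ν₁ k a b h1 h2 h3 h4
    by_cases h5 : μ + ∑ i, ν₁ i = 0
    · refine ⟨_, hP ν₁ k h1, ⟨a, b, h4⟩, ?_⟩
      rw [sum_flip]
      intro h6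
      apply h2
      linear_combination (h5 - h6) / 2
    · exact ⟨ν₁, h1, ⟨a, b, h3⟩, h5⟩
  by_cases hz : ∃ l, ν l = 0
  · obtain ⟨l, hl⟩ := hz
    have hil : i ≠ l := by
      rintro rfl
      exact hi hl
    refine key ν i i l hν hi (by rw [hl]; exact hi) ?_
    rw [Function.update_self, Function.update_of_ne hil.symm, hl]
    exact neg_ne_zero.2 hi
  · push Not at hz
    obtain ⟨j, hj⟩ : ∃ j : Fin p, j ≠ i := by
      have : Nontrivial (Fin p) := Fin.nontrivial_iff_two_le.2 (by omega)
      exact exists_ne i
    obtain ⟨k, hk⟩ : ∃ k : Fin p, k ≠ i ∧ k ≠ j := by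
      by_contra hcon
      push Not at hcon
      have h1 : (Finset.univ : Finset (Fin p)) ⊆ {i, j} := fun k _ => by
        by_cases hki : k = i
        · simp [hki]
        · simp [hcon k hki]
      have h2 := Finset.card_le_card h1
      rw [Finset.card_univ, Fintype.card_fin] at h2
      have h3 : ({i, j} : Finset (Fin p)).card ≤ 2 := Finset.card_le_two
      omega
    obtain ⟨ν₁, h1, h2, h3⟩ : ∃ ν₁ : Fin p → ℂ, P ν₁ ∧ ν₁ i ≠ ν₁ j ∧ ν₁ k ≠ 0 := by
      by_cases hij : ν i = ν j
      · refine ⟨_, hP ν j hν, ?_, ?_⟩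
        · rw [Function.update_self, Function.update_of_ne hj.symm, ← hij]
          intro h4
          apply hi
          linear_combination h4 / 2
        · rw [Function.update_of_ne hk.2]
          exact hz k
      · exact ⟨ν, hν, hij, hz k⟩
    refine key ν₁ k i j h1 h3 h2 ?_
    rwa [Function.update_of_ne hk.1.symm, Function.update_of_ne hk.2.symm]

/-- The arrangements. -/
theorem exists_arr (hP : ∀ ν (i j : Fin p), P ν → P (ν ∘ Equiv.swap i j)) {ν : Fin p → ℂ}
    (hν : P ν) {i j : Fin p} (hij : ν i ≠ ν j) :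
    ∃ f : Fin p → Fin p → ℂ, Function.Injective f ∧ (∀ l, P (f l)) ∧
      ∀ l, ∑ k, f l k = ∑ k, ν k := by
  classical
  refine ⟨fun l => if l = i then ν else if ν l ≠ ν i then ν ∘ Equiv.swap i l
    else ν ∘ Equiv.swap l j, ?_, ?_, ?_⟩
  · intro l m hlm
    by_contra hne
    have ha := fun k => congrFun hlm k
    by_cases hl : l = i
    · subst hl
      have hm : m ≠ l := fun h => hne h.symm
      by_cases hm2 : ν m = ν l
      · have h1 := ha m
        simp only [if_neg hm, hm2, ne_eq, not_true_eq_false, if_false, if_true,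
          Function.comp_apply, Equiv.swap_apply_left] at h1
        exact hij h1
      · have h1 := ha l
        simp only [if_neg hm, hm2, ne_eq, not_false_eq_true, if_true,
          Function.comp_apply, Equiv.swap_apply_left] at h1
        exact hm2 h1.symm
    · by_cases hm : m = i
      · subst hm
        by_cases hl2 : ν l = ν m
        · have h1 := ha l
          simp only [if_neg hl, hl2, ne_eq, not_true_eq_false, if_false, if_true,
            Function.comp_apply, Equiv.swap_apply_left] at h1
          exact hij h1.symm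
        · have h1 := ha m
          simp only [if_neg hl, hl2, ne_eq, not_false_eq_true, if_true,
            Function.comp_apply, Equiv.swap_apply_left] at h1
      · by_cases hl2 : ν l = ν i
        · by_cases hm2 : ν m = ν i
          · have h1 := ha l
            have hlj : l ≠ j := by
              rintro rfl
              exact hij hl2.symm
            simp only [if_neg hl, if_neg hm, hl2, hm2, ne_eq, not_true_eq_false, if_false,
              Function.comp_apply, Equiv.swap_apply_left,
              Equiv.swap_apply_of_ne_of_ne hne hlj] at h1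
            exact hij h1.symm
          · have h1 := ha i
            have hij' : i ≠ j := by
              rintro rfl
              exact hij rfl
            simp only [if_neg hl, if_neg hm, hl2, hm2, ne_eq, not_true_eq_false, if_false,
              not_false_eq_true, if_true, Function.comp_apply, Equiv.swap_apply_left,
              Equiv.swap_apply_of_ne_of_ne (Ne.symm hl) hij'] at h1
            exact hm2 h1.symm
        · by_cases hm2 : ν m = ν i
          · have h1 := ha i
            have hij' : i ≠ j := by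
              rintro rfl
              exact hij rfl
            simp only [if_neg hl, if_neg hm, hl2, hm2, ne_eq, not_true_eq_false, if_false,
              not_false_eq_true, if_true, Function.comp_apply, Equiv.swap_apply_left,
              Equiv.swap_apply_of_ne_of_ne (Ne.symm hm) hij'] at h1
          · have h1 := ha l
            simp only [if_neg hl, if_neg hm, hl2, hm2, ne_eq, not_false_eq_true, if_true,
              Function.comp_apply, Equiv.swap_apply_right,
              Equiv.swap_apply_of_ne_of_ne hl hne] at h1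
            exact hl2 h1.symm
  · intro l
    dsimp only
    split_ifs
    · exact hν
    · exact hP _ _ _ hν
    · exact hP _ _ _ hν
  · intro l
    dsimp only
    split_ifs
    · rfl
    · exact Equiv.sum_comp (Equiv.swap i l) ν
    · exact Equiv.sum_comp (Equiv.swap l j) ν

end comb

end

end Pool.Agent.Q43.GN
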