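import Mathlib
import Pool.Agent.Q43.GN.Sl
import Pool.Agent.Q43.GN.Wt
import Pool.Agent.TH131.GHC.Darb

/-!
# Eigenspaces of the grading operator in representations of symplectic Lie algebras
-/

set_option autoImplicit false
set_option linter.unusedSectionVars false

namespace Pool.Agent.Q43.GN

open Module Pool.Agent.H204R3.SP Pool.Agent.W437.HP

noncomputable section

variable {W : Type*} [AddCommGroup W] [Module ℂ W] [FiniteDimensional ℂ W]

theorem ad_nilp {h x : End ℂ W} (hn : IsNilpotent h) {c : ℂ} (hc : c ≠ 0)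
    (hx : h * x - x * h = c • x) : x = 0 := by
  have h1 : IsNilpotent (LinearMap.mulLeft ℂ h) := (LinearMap.isNilpotent_mulLeft_iff ℂ h).2 hn
  have h2 : IsNilpotent (LinearMap.mulRight ℂ h) := (LinearMap.isNilpotent_mulRight_iff ℂ h).2 hn
  have h3 : Commute (LinearMap.mulLeft ℂ h) (LinearMap.mulRight ℂ h) :=
    LinearMap.ext fun y => (mul_assoc h y h).symm
  obtain ⟨n, hn⟩ := h3.isNilpotent_sub h1 h2
  have h4 : ∀ k : ℕ, ((LinearMap.mulLeft ℂ h - LinearMap.mulRight ℂ h) ^ k) x = c ^ k • x := by
    intro k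
    induction k with
    | zero => simp
    | succ k ih =>
      rw [pow_succ', Module.End.mul_apply, ih, map_smul, LinearMap.sub_apply,
        LinearMap.mulLeft_apply, LinearMap.mulRight_apply, hx, smul_smul, pow_succ]
  have h5 := h4 n
  rw [hn, LinearMap.zero_apply] at h5
  exact (smul_eq_zero.1 h5.symm).resolve_left (pow_ne_zero n hc)

theorem nilp_of_eig {h : End ℂ W} (hh : ∀ c : ℂ, h.HasEigenvalue c → c = 0) : IsNilpotent h := by
  have h1 : ∀ c : ℂ, c ≠ 0 → h.maxGenEigenspace c = ⊥ := by
    intro c hc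
    by_contra h2
    obtain ⟨x, hx, hx0⟩ := (Submodule.ne_bot_iff _).1 h2
    obtain ⟨k, hk⟩ := (Module.End.mem_maxGenEigenspace _ _ _).1 hx
    refine hc (hh c (Module.End.hasEigenvalue_of_hasGenEigenvalue (k := k) ?_))
    rw [Module.End.hasGenEigenvalue_iff, Submodule.ne_bot_iff]
    exact ⟨x, (Module.End.mem_genEigenspace_nat).2 hk, hx0⟩
  have h2 : h.maxGenEigenspace 0 = ⊤ := by
    rw [eq_top_iff, ← Module.End.iSup_maxGenEigenspace_eq_top h]
    refine iSup_le fun c => ?_
    by_cases hc : c = 0
    · rw [hc]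
    · rw [h1 c hc]
      exact bot_le
  refine ⟨finrank ℂ W, ?_⟩
  ext x
  have h3 : x ∈ h.maxGenEigenspace 0 := by
    rw [h2]
    trivial
  rw [Module.End.maxGenEigenspace_eq_genEigenspace_finrank, Module.End.mem_genEigenspace_nat,
    zero_smul, sub_zero] at h3
  exact h3

variable {V : Type*} [AddCommGroup V] [Module ℂ V] [FiniteDimensional ℂ V]

/-- **The counting lemma.** -/
theorem count (w : V →ₗ[ℂ] V →ₗ[ℂ] ℂ) (halt : ∀ v, w v v = 0) (hnd : ∀ u, (∀ v, w u v = 0) → u = 0)
    (A : End ℂ V) (hA : ∀ v, A (A v) = v) (hsp : IsSp w A) (R : V →ₗ[ℂ] V →ₗ[ℂ] End ℂ W)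
    (hsym : ∀ x y, R x y = R y x)
    (hR : ∀ x y x' y', R x y * R x' y' - R x' y' * R x y = R (EE w x y x') y' + R x' (EE w x y y'))
    (hR0 : R ≠ 0) (z g : End ℂ W) (hz : ∀ x y, z * R x y - R x y * z = R (A x) y + R x (A y))
    (hg : ∀ x y, g * R x y = R x y * g) (hgz : g * z = z * g) {r : ℕ} (hr : 3 ≤ r)
    (hrV : 2 * r ≤ finrank ℂ V) :
    ∃ κ : ℂ, κ ≠ 0 ∧ ∃ d : ℂ,
      r ≤ finrank ℂ ↥(LinearMap.ker (z - κ • 1) ⊓ LinearMap.ker (g - d • 1)) := by
  classical
  obtain ⟨p, e, hAl, hAr, hw⟩ := Pool.Agent.TH131.GHC.exists_darboux_D w halt hnd A hA hsp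
  have hdim : finrank ℂ V = p + p := by
    rw [finrank_eq_card_basis e, Fintype.card_sum, Fintype.card_fin]
  have hp : r ≤ p := by omega
  obtain ⟨u, hu⟩ : ∃ u : Fin p → V, u = fun i => e (Sum.inl i) := ⟨_, rfl⟩
  obtain ⟨v, hv⟩ : ∃ v : Fin p → V, v = fun i => e (Sum.inr i) := ⟨_, rfl⟩
  have huu : ∀ i j, w (u i) (u j) = 0 := by
    intro i j
    rw [hu, hw]
    simp [JJ]
  have hvv : ∀ i j, w (v i) (v j) = 0 := by
    intro i j
    rw [hv, hw]
    simp [JJ]
  have huv : ∀ i j, w (u i) (v j) = if i = j then 1 else 0 := by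
    intro i j
    rw [hu, hv, hw]
    simp [JJ, eq_comm]
  have hvu : ∀ i j, w (v i) (u j) = if i = j then -1 else 0 := by
    intro i j
    rw [hu, hv, hw]
    simp [JJ, eq_comm]
  have hbr : ∀ x y x' y', R x y * R x' y' - R x' y' * R x y =
      w y x' • R x y' + w x x' • R y y' + w y y' • R x' x + w x y' • R x' y := by
    intro x y x' y'
    rw [hR, EE_apply, EE_apply, map_add, map_add, LinearMap.add_apply, map_smul, map_smul,
      LinearMap.smul_apply, LinearMap.smul_apply, map_smul, map_smul]
    abel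
  obtain ⟨h, hh⟩ : ∃ h : Fin p → End ℂ W, h = fun i => -R (u i) (v i) := ⟨_, rfl⟩
  have hhi : ∀ i, h i = -R (u i) (v i) := fun i => by rw [hh]
  -- brackets
  have hhh : ∀ i j, h i * h j = h j * h i := by
    intro i j
    rw [hhi, hhi, neg_mul_neg, neg_mul_neg, ← sub_eq_zero, hbr, huu, hvv, hvu, huv]
    by_cases hij : i = j
    · subst hij
      simp only [if_true, zero_smul, add_zero]
      module
    · simp [hij]
  have hhx : ∀ i x y, h i * R x y - R x y * h i =
      -(w (v i) x • R (u i) y + w (u i) x • R (v i) y + w (v i) y • R x (u i) +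
        w (u i) y • R x (v i)) := by
    intro i x y
    rw [hhi, neg_mul, mul_neg, ← hbr]
    abel
  have he : ∀ i, h i * R (u i) (u i) - R (u i) (u i) * h i = (2 : ℂ) • R (u i) (u i) := by
    intro i
    rw [hhx, huu, hvu, if_pos rfl]
    module
  have hf : ∀ i, h i * R (v i) (v i) - R (v i) (v i) * h i = (-2 : ℂ) • R (v i) (v i) := by
    intro i
    rw [hhx, hvv, huv, if_pos rfl]
    module
  have hef : ∀ i, ((2 : ℂ)⁻¹ • R (u i) (u i)) * (-(2 : ℂ)⁻¹ • R (v i) (v i)) -
      (-(2 : ℂ)⁻¹ • R (v i) (v i)) * ((2 : ℂ)⁻¹ • R (u i) (u i)) = h i := by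
    intro i
    have h1 := hbr (u i) (u i) (v i) (v i)
    rw [huv, if_pos rfl, hsym (v i) (u i)] at h1
    rw [smul_mul_smul_comm, smul_mul_smul_comm, mul_comm (-(2 : ℂ)⁻¹) _, ← smul_sub, h1, hhi]
    module
  have hE : ∀ i j, i ≠ j → ∀ k, h k * R (u i) (v j) - R (u i) (v j) * h k =
      ((if k = i then 1 else 0) - (if k = j then 1 else 0) : ℂ) • R (u i) (v j) := by
    intro i j hij k
    rw [hhx, huu, hvv, hvu, huv]
    by_cases hki : k = i
    · subst hki
      simp [hij]
    · by_cases hkj : k = j
      · subst hkj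
        simp [hki]
      · simp [hki, hkj]
  -- the sum of the `h i`
  have hsum : ∀ x y, (∑ i, h i) * R x y - R x y * (∑ i, h i) = R (A x) y + R x (A y) := by
    intro x y
    have h1 : ∀ x, -∑ i, (w (v i) x • u i + w (u i) x • v i) = A x := by
      intro x
      let F : V →ₗ[ℂ] V := -∑ i, ((w (v i)).smulRight (u i) + (w (u i)).smulRight (v i))
      have h2 : F = A := by
        refine e.ext fun a => ?_
        change (-∑ i, ((w (v i)).smulRight (u i) + (w (u i)).smulRight (v i)) : V →ₗ[ℂ] V) (e a)
          = A (e a)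
        rw [LinearMap.neg_apply, LinearMap.sum_apply]
        rcases a with j | j
        · have h3 : e (Sum.inl j) = u j := by rw [hu]
          rw [hAl, h3]
          simp [hvu, huu]
        · have h3 : e (Sum.inr j) = v j := by rw [hv]
          rw [hAr, h3]
          simp [huv, hvv]
      rw [← h2]
      simp [F]
    rw [Finset.sum_mul, Finset.mul_sum, ← Finset.sum_sub_distrib, ← h1 x, ← h1 y]
    simp only [hhx, map_neg, map_sum, LinearMap.neg_apply, LinearMap.sum_apply, map_add, map_smul,
      LinearMap.add_apply, LinearMap.smul_apply, Finset.sum_neg_distrib, Finset.sum_add_distrib]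
    abel
  obtain ⟨y0, hy0⟩ : ∃ y0 : End ℂ W, y0 = z - ∑ i, h i := ⟨_, rfl⟩
  have hyR : ∀ x y, y0 * R x y = R x y * y0 := by
    intro x y
    have h1 := hz x y
    rw [← hsum x y] at h1
    rw [hy0, ← sub_eq_zero]
    have h2 : (z - ∑ i, h i) * R x y - R x y * (z - ∑ i, h i) = (z * R x y - R x y * z) -
        ((∑ i, h i) * R x y - R x y * (∑ i, h i)) := by noncomm_ring
    rw [h2, h1, sub_self]
  have hyh : ∀ i, y0 * h i = h i * y0 := by
    intro i
    rw [hhi, mul_neg, neg_mul, hyR]
  have hgh : ∀ i, g * h i = h i * g := by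
    intro i
    rw [hhi, mul_neg, neg_mul, hg]
  have hgy : g * y0 = y0 * g := by
    rw [hy0, mul_sub, sub_mul, hgz, Finset.mul_sum, Finset.sum_mul]
    rw [Finset.sum_congr rfl fun i _ => hgh i]
  -- the commuting family
  let F : Option (Option (Fin p)) → End ℂ W := fun a => a.elim g fun b => b.elim y0 h
  have hF : ∀ a b, F a * F b = F b * F a := by
    rintro (_ | _ | i) (_ | _ | j)
    · rfl
    · exact hgy
    · exact hgh j
    · exact hgy.symm
    · rfl
    · exact hyh j
    · exact (hgh i).symm
    · exact (hyh i).symm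
    · exact hhh i j
  -- a nonzero weight
  obtain ⟨i0, c0, hc0, hc0'⟩ : ∃ (i : Fin p) (c : ℂ), c ≠ 0 ∧ (h i).HasEigenvalue c := by
    by_contra hcon
    push Not at hcon
    have hnil : ∀ i, IsNilpotent (h i) := fun i => nilp_of_eig fun c hc => by
      by_contra hc0
      exact hcon i c hc0 hc
    have h0 : ∀ i, h i = 0 := by
      intro i
      rw [← hef i, ad_nilp (hnil i) (by norm_num) (he i)]
      simp
    apply hR0
    refine e.ext fun a => e.ext fun b => ?_
    rw [LinearMap.zero_apply, LinearMap.zero_apply]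
    have h4 : ∀ i j, R (u i) (u j) = 0 := by
      intro i j
      have h5 := hhx i (u i) (u j)
      rw [h0, zero_mul, mul_zero, sub_zero, huu, huu, hvu, hvu, if_pos rfl] at h5
      by_cases hij : i = j
      · rw [hij, ad_nilp (hnil j) (by norm_num) (he j)]
      · rw [if_neg hij] at h5
        simp only [neg_smul, one_smul, zero_smul, add_zero, neg_neg] at h5
        exact h5.symm
    have h5 : ∀ i j, R (v i) (v j) = 0 := by
      intro i j
      have h5 := hhx i (v i) (v j)
      rw [h0, zero_mul, mul_zero, sub_zero, hvv, hvv, huv, huv, if_pos rfl] at h5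
      by_cases hij : i = j
      · rw [hij, ad_nilp (hnil j) (by norm_num) (hf j)]
      · rw [if_neg hij] at h5
        simp only [one_smul, zero_smul, zero_add, add_zero] at h5
        exact neg_eq_zero.1 h5.symm
    have h6 : ∀ i j, R (u i) (v j) = 0 := by
      intro i j
      by_cases hij : i = j
      · have h7 := hhi i
        rw [h0 i] at h7
        rw [← hij]
        exact neg_eq_zero.1 h7.symm
      · have h7 := hE i j hij i
        rw [h0, zero_mul, mul_zero, sub_zero, if_pos rfl, if_neg hij, sub_zero, one_smul] at h7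
        exact h7.symm
    rcases a with i | i <;> rcases b with j | j
    · have := h4 i j
      rwa [hu] at this
    · have := h6 i j
      rwa [hu, hv] at this
    · have := h6 j i
      rw [hsym]
      rwa [hu, hv] at this
    · have := h5 i j
      rwa [hv] at this
  obtain ⟨w0, hw0, hw00, c, hc⟩ := exists_joint F hF ((h i0).eigenspace c0) hc0' (by
    intro a x hx
    rw [Module.End.mem_eigenspace_iff] at hx ⊢
    have h1 := congrArg (fun f : End ℂ W => f x) (hF (some (some i0)) a)
    change h i0 (F a x) = F a (h i0 x) at h1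
    rw [h1, hx, map_smul])
  have hg0 : g w0 = c none • w0 := hc none
  have hy00 : y0 w0 = c (some none) • w0 := hc (some none)
  have hh0 : ∀ i, h i w0 = c (some (some i)) • w0 := fun i => hc (some (some i))
  have hcc : c (some (some i0)) = c0 := by
    have h1 := hh0 i0
    rw [Module.End.mem_eigenspace_iff.1 hw0] at h1
    exact (smul_left_injective ℂ hw00 h1).symm
  set d := c none with hd
  set μ := c (some none) with hμ
  let P : (Fin p → ℂ) → Prop := fun ν => ∃ x : W, x ≠ 0 ∧ g x = d • x ∧ y0 x = μ • x ∧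
    ∀ i, h i x = ν i • x
  have hP0 : P fun i => c (some (some i)) := ⟨w0, hw00, hg0, hy00, hh0⟩
  have hunit : ∀ {s : End ℂ W} {x : W}, IsUnit s → x ≠ 0 → s x ≠ 0 := by
    intro s x hs hx hsx
    obtain ⟨t, ht⟩ := hs
    apply hx
    have h1 : (↑t⁻¹ * s : End ℂ W) x = x := by
      rw [← ht, Units.inv_mul, Module.End.one_apply]
    rw [← h1, Module.End.mul_apply, hsx, map_zero]
  have hap : ∀ {s t : End ℂ W} {x : W} {a : ℂ}, s * t = t * s → t x = a • x →
      t (s x) = a • s x := by
    intro s t x a hst hx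
    have h1 := congrArg (fun f : End ℂ W => f x) hst
    change s (t x) = t (s x) at h1
    rw [← h1, hx, map_smul]
  have hflip : ∀ ν k, P ν → P (Function.update ν k (-ν k)) := by
    rintro ν k ⟨x, hx0, hx1, hx2, hx3⟩
    obtain ⟨s, hs1, hs2, hs3⟩ := exists_refl (e := (2 : ℂ)⁻¹ • R (u k) (u k)) (h := h k)
      (f := -(2 : ℂ)⁻¹ • R (v k) (v k)) (by
        rw [mul_smul_comm, smul_mul_assoc, ← smul_sub, he, smul_comm]) (by
        rw [mul_smul_comm, smul_mul_assoc, ← smul_sub, hf, smul_comm]) (hef k)
    have hcomm : ∀ y : End ℂ W, R (u k) (u k) * y = y * R (u k) (u k) →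
        R (v k) (v k) * y = y * R (v k) (v k) → s * y = y * s := by
      intro y h1 h2
      exact hs3 y (by rw [smul_mul_assoc, h1, mul_smul_comm]) (by
        rw [smul_mul_assoc, h2, mul_smul_comm])
    refine ⟨s x, hunit hs1 hx0, hap (hcomm g (hg _ _).symm (hg _ _).symm) hx1,
      hap (hcomm y0 (hyR _ _).symm (hyR _ _).symm) hx2, fun i => ?_⟩
    by_cases hik : i = k
    · subst hik
      rw [Function.update_self]
      have h1 := congrArg (fun f : End ℂ W => f x) hs2
      change s (h i x) = -(h i (s x)) at h1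
      rw [neg_smul, ← neg_eq_iff_eq_neg, ← h1, hx3, map_smul]
    · rw [Function.update_of_ne hik]
      refine hap (hcomm (h i) ?_ ?_) (hx3 i)
      · have h1 := hhx i (u k) (u k)
        rw [huu, hvu, if_neg hik] at h1
        simp only [zero_smul, add_zero, neg_zero] at h1
        exact (sub_eq_zero.1 h1).symm
      · have h1 := hhx i (v k) (v k)
        rw [hvv, huv, if_neg hik] at h1
        simp only [zero_smul, add_zero, neg_zero] at h1
        exact (sub_eq_zero.1 h1).symm
  have hswap : ∀ ν (i j : Fin p), P ν → P (ν ∘ Equiv.swap i j) := by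
    rintro ν i j ⟨x, hx0, hx1, hx2, hx3⟩
    by_cases hij : i = j
    · subst hij
      rw [Equiv.swap_self]
      exact ⟨x, hx0, hx1, hx2, hx3⟩
    have hEij := hE i j hij
    have hEji := hE j i (Ne.symm hij)
    obtain ⟨s, hs1, hs2, hs3⟩ := exists_refl (e := -R (u i) (v j)) (h := h i - h j)
      (f := -R (u j) (v i)) (by
        have h1 := hEij i
        have h2 := hEij j
        rw [if_pos rfl, if_neg hij] at h1
        rw [if_pos rfl, if_neg (Ne.symm hij)] at h2
        have h3 : (h i - h j) * -R (u i) (v j) - -R (u i) (v j) * (h i - h j) =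
            -((h i * R (u i) (v j) - R (u i) (v j) * h i) -
              (h j * R (u i) (v j) - R (u i) (v j) * h j)) := by noncomm_ring
        rw [h3, h1, h2]
        module) (by
        have h1 := hEji i
        have h2 := hEji j
        rw [if_pos rfl, if_neg hij] at h1
        rw [if_pos rfl, if_neg (Ne.symm hij)] at h2
        have h3 : (h i - h j) * -R (u j) (v i) - -R (u j) (v i) * (h i - h j) =
            -((h i * R (u j) (v i) - R (u j) (v i) * h i) -
              (h j * R (u j) (v i) - R (u j) (v i) * h j)) := by noncomm_ring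
        rw [h3, h1, h2]
        module) (by
        rw [neg_mul_neg, neg_mul_neg, hbr, huu, hvv, hvu, huv, if_pos rfl, if_pos rfl, hhi, hhi,
          hsym (u j) (u i)]
        module)
    have hcomm : ∀ y : End ℂ W, R (u i) (v j) * y = y * R (u i) (v j) →
        R (u j) (v i) * y = y * R (u j) (v i) → s * y = y * s := by
      intro y h1 h2
      exact hs3 y (by rw [neg_mul, h1, mul_neg]) (by rw [neg_mul, h2, mul_neg])
    have hsm : s * (h i + h j) = (h i + h j) * s := by
      refine hcomm _ ?_ ?_
      · have h1 := hEij i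
        have h2 := hEij j
        rw [if_pos rfl, if_neg hij] at h1
        rw [if_pos rfl, if_neg (Ne.symm hij)] at h2
        rw [← sub_eq_zero]
        have h3 : R (u i) (v j) * (h i + h j) - (h i + h j) * R (u i) (v j) =
            -((h i * R (u i) (v j) - R (u i) (v j) * h i) +
              (h j * R (u i) (v j) - R (u i) (v j) * h j)) := by noncomm_ring
        rw [h3, h1, h2]
        module
      · have h1 := hEji i
        have h2 := hEji j
        rw [if_pos rfl, if_neg hij] at h1
        rw [if_pos rfl, if_neg (Ne.symm hij)] at h2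
        rw [← sub_eq_zero]
        have h3 : R (u j) (v i) * (h i + h j) - (h i + h j) * R (u j) (v i) =
            -((h i * R (u j) (v i) - R (u j) (v i) * h i) +
              (h j * R (u j) (v i) - R (u j) (v i) * h j)) := by noncomm_ring
        rw [h3, h1, h2]
        module
    have hsa : h i (s x) + h j (s x) = (ν i + ν j) • s x := by
      have h1 := congrArg (fun f : End ℂ W => f x) hsm
      change s (h i x + h j x) = h i (s x) + h j (s x) at h1
      rw [← h1, hx3, hx3, ← add_smul, map_smul]
    have hsb : h i (s x) - h j (s x) = -((ν i - ν j) • s x) := by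
      have h1 := congrArg (fun f : End ℂ W => f x) hs2
      change s (h i x - h j x) = -(h i (s x) - h j (s x)) at h1
      rw [hx3, hx3, ← sub_smul, map_smul] at h1
      rw [h1, neg_neg]
    refine ⟨s x, hunit hs1 hx0, hap (hcomm g (hg _ _).symm (hg _ _).symm) hx1,
      hap (hcomm y0 (hyR _ _).symm (hyR _ _).symm) hx2, fun k => ?_⟩
    by_cases hki : k = i
    · subst hki
      rw [Function.comp_apply, Equiv.swap_apply_left]
      have h1 : (2 : ℂ) • h k (s x) = (2 : ℂ) • (ν j • s x) := by
        have h2 : (2 : ℂ) • h k (s x) = (h k (s x) + h j (s x)) + (h k (s x) - h j (s x)) := by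
          module
        rw [h2, hsa, hsb]
        module
      exact smul_right_injective W (two_ne_zero (α := ℂ)) h1
    · by_cases hkj : k = j
      · subst hkj
        rw [Function.comp_apply, Equiv.swap_apply_right]
        have h1 : (2 : ℂ) • h k (s x) = (2 : ℂ) • (ν i • s x) := by
          have h2 : (2 : ℂ) • h k (s x) = (h i (s x) + h k (s x)) - (h i (s x) - h k (s x)) := by
            module
          rw [h2, hsa, hsb]
          module
        exact smul_right_injective W (two_ne_zero (α := ℂ)) h1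
      · rw [Function.comp_apply, Equiv.swap_apply_of_ne_of_ne hki hkj]
        refine hap (hcomm (h k) ?_ ?_) (hx3 k)
        · have h1 := hEij k
          rw [if_neg hki, if_neg hkj, sub_zero, zero_smul] at h1
          exact (sub_eq_zero.1 h1).symm
        · have h1 := hEji k
          rw [if_neg hki, if_neg hkj, sub_zero, zero_smul] at h1
          exact (sub_eq_zero.1 h1).symm
  obtain ⟨ν, hν, ⟨i, j, hij⟩, hne⟩ := exists_signs hflip (by omega) hP0 (by
    intro h1
    have h2 := congrFun h1 i0
    rw [hcc] at h2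
    exact hc0 h2) μ
  obtain ⟨f, hfi, hfP, hfs⟩ := exists_arr hswap hν hij
  choose x hx0 hx1 hx2 hx3 using hfP
  refine ⟨μ + ∑ i, ν i, hne, d, hp.trans (card_le_of_weights h hhh f hfi x hx0 hx3 _ fun l => ?_)⟩
  refine ⟨?_, ?_⟩
  · rw [SetLike.mem_coe, LinearMap.mem_ker, LinearMap.sub_apply, LinearMap.smul_apply,
      Module.End.one_apply, sub_eq_zero]
    have h1 : z = y0 + ∑ i, h i := by rw [hy0, sub_add_cancel]
    rw [h1, LinearMap.add_apply, LinearMap.sum_apply, hx2, Finset.sum_congr rfl fun i _ => hx3 l i,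
      ← Finset.sum_smul, hfs, add_smul]
  · rw [SetLike.mem_coe, LinearMap.mem_ker, LinearMap.sub_apply, LinearMap.smul_apply,
      Module.End.one_apply, hx1, sub_self]

end

end Pool.Agent.Q43.GN
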