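import Mathlib

/-!
# Positivity of the trace form for polarized Hodge structures
-/

set_option autoImplicit false
set_option linter.unusedSectionVars false

namespace Pool.Agent.Q43.GN

open Module Matrix

noncomputable section

/-- The matrix with rational entries as a complex matrix. -/
def cQ {C : Type*} (Q : Matrix C C ℚ) : Matrix C C ℂ := Q.map fun x : ℚ => (x : ℂ)

/-- `Q` is a polarization of the rational Hodge structure with the Hodge operator `z`, which is
multiplication by `p - q` on the component of type `(p, q)`. -/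
structure IsPol {C : Type*} [Fintype C] [DecidableEq C] (z : Matrix C C ℂ) (Q : Matrix C C ℚ) :
    Prop where
  dec : ∀ x : C → ℂ, x ∈ Submodule.span ℂ {y | ∃ k : ℤ, z *ᵥ y = (k : ℂ) • y}
  real : z.map (starRingEnd ℂ) = -z
  skew : zᵀ * cQ Q + cQ Q * z = 0
  pos : ∀ (k : ℤ) (x : C → ℂ), x ≠ 0 → z *ᵥ x = (k : ℂ) • x →
    ∃ t : ℝ, 0 < t ∧ Complex.I ^ k * (x ⬝ᵥ (cQ Q *ᵥ fun c => starRingEnd ℂ (x c))) = t

variable {C : Type*} [Fintype C] [DecidableEq C] {z : Matrix C C ℂ} {Q : Matrix C C ℚ}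

/-- The complex conjugate vector. -/
def cj (x : C → ℂ) : C → ℂ := fun c => starRingEnd ℂ (x c)

theorem cj_mulVec (M : Matrix C C ℂ) (x : C → ℂ) : cj (M *ᵥ x) = M.map (starRingEnd ℂ) *ᵥ cj x := by
  funext c
  simp [cj, mulVec, dotProduct, map_sum]

theorem cj_cj (x : C → ℂ) : cj (cj x) = x := by
  funext c
  simp [cj]

theorem cj_add (x y : C → ℂ) : cj (x + y) = cj x + cj y := by
  funext c
  simp [cj]

theorem cj_smul (a : ℂ) (x : C → ℂ) : cj (a • x) = starRingEnd ℂ a • cj x := by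
  funext c
  simp [cj]

/-- The Weil operator. -/
theorem exists_weil (h : IsPol z Q) : ∃ W : (C → ℂ) →ₗ[ℂ] (C → ℂ),
    ∀ (k : ℤ) (x : C → ℂ), z *ᵥ x = (k : ℂ) • x → W x = Complex.I ^ k • x := by
  classical
  obtain ⟨f, hf1, hf2, hf3⟩ := Submodule.exists_fun_fin_finrank_span_eq ℂ
    {y : C → ℂ | ∃ k : ℤ, z *ᵥ y = (k : ℂ) • y}
  have htop : Submodule.span ℂ {y : C → ℂ | ∃ k : ℤ, z *ᵥ y = (k : ℂ) • y} = ⊤ :=
    eq_top_iff.2 fun x _ => h.dec x
  let b : Basis _ ℂ (C → ℂ) := Basis.mk hf3 (by rw [hf2, htop])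
  have hb : ∀ j, b j = f j := fun j => Basis.mk_apply hf3 _ j
  choose k hk using hf1
  have hrep : ∀ x j, b.repr (z *ᵥ x) j = (k j : ℂ) * b.repr x j := by
    intro x j
    have h1 : (b.coord j).comp (Matrix.mulVecLin z) = (k j : ℂ) • b.coord j := by
      refine b.ext fun i => ?_
      rw [LinearMap.comp_apply, Matrix.mulVecLin_apply, LinearMap.smul_apply, Basis.coord_apply,
        Basis.coord_apply, hb, hk, ← hb, map_smul, Finsupp.smul_apply, Basis.repr_self]
      by_cases hij : i = j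
      · subst hij
        rfl
      · rw [Finsupp.single_eq_of_ne (Ne.symm hij)]
        simp
    exact LinearMap.congr_fun h1 x
  refine ⟨b.constr ℂ fun j => Complex.I ^ k j • b j, fun κ x hx => ?_⟩
  have h2 : ∀ y j, b.repr (b.constr ℂ (fun j => Complex.I ^ k j • b j) y) j =
      Complex.I ^ k j * b.repr y j := by
    intro y j
    have h1 : (b.coord j).comp (b.constr ℂ fun j => Complex.I ^ k j • b j) =
        Complex.I ^ k j • b.coord j := by
      refine b.ext fun i => ?_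
      rw [LinearMap.comp_apply, Basis.constr_basis, LinearMap.smul_apply, Basis.coord_apply,
        Basis.coord_apply, map_smul, Finsupp.smul_apply, Basis.repr_self]
      by_cases hij : i = j
      · subst hij
        rfl
      · rw [Finsupp.single_eq_of_ne (Ne.symm hij)]
        simp
    exact LinearMap.congr_fun h1 y
  apply b.repr.injective
  ext j
  rw [h2, map_smul, Finsupp.smul_apply, smul_eq_mul]
  have h3 := hrep x j
  rw [hx, map_smul, Finsupp.smul_apply, smul_eq_mul] at h3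
  by_cases h0 : b.repr x j = 0
  · rw [h0, mul_zero, mul_zero]
  · have h4 := mul_right_cancel₀ h0 h3
    have h5 : κ = k j := by exact_mod_cast h4
    rw [h5]

/-- The eigenvalues are integers. -/
theorem eig_int (h : IsPol z Q) {c : ℂ} {x : C → ℂ} (hx : z *ᵥ x = c • x) (h0 : x ≠ 0) :
    ∃ k : ℤ, c = k := by
  by_contra hcon
  push Not at hcon
  have h1 := (Module.End.eigenspaces_iSupIndep (Matrix.mulVecLin z : Module.End ℂ (C → ℂ))) c
  rw [Submodule.disjoint_def] at h1
  refine h0 (h1 x (Module.End.mem_eigenspace_iff.2 hx) ?_)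
  have h2 := h.dec x
  refine (Submodule.span_le.2 ?_ : Submodule.span ℂ _ ≤ _) h2
  rintro y ⟨k, hk⟩
  exact Submodule.mem_iSup_of_mem (k : ℂ) (Submodule.mem_iSup_of_mem (Ne.symm (hcon k))
    (Module.End.mem_eigenspace_iff.2 hk))

/-- The decomposition in components. -/
theorem exists_dec (h : IsPol z Q) (x : C → ℂ) : ∃ f : ℤ →₀ (C → ℂ),
    (∀ k, z *ᵥ f k = (k : ℂ) • f k) ∧ x = f.sum fun _ y => y := by
  classical
  have h1 := h.dec x
  induction h1 using Submodule.span_induction with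
  | mem x hx =>
    obtain ⟨k, hk⟩ := hx
    refine ⟨Finsupp.single k x, fun l => ?_, ?_⟩
    · by_cases hl : k = l
      · subst hl
        rw [Finsupp.single_eq_same, hk]
      · rw [Finsupp.single_eq_of_ne (Ne.symm hl), mulVec_zero, smul_zero]
    · rw [Finsupp.sum_single_index rfl]
  | zero => exact ⟨0, fun l => by simp, by simp⟩
  | add x y _ _ hx hy =>
    obtain ⟨f, hf1, hf2⟩ := hx
    obtain ⟨g, hg1, hg2⟩ := hy
    refine ⟨f + g, fun l => ?_, ?_⟩
    · rw [Finsupp.add_apply, mulVec_add, hf1, hg1, smul_add]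
    · rw [Finsupp.sum_add_index' (fun _ => rfl) (fun _ _ _ => rfl), ← hf2, ← hg2]
  | smul a x _ hx =>
    obtain ⟨f, hf1, hf2⟩ := hx
    refine ⟨a • f, fun l => ?_, ?_⟩
    · rw [Finsupp.smul_apply, mulVec_smul, hf1, smul_comm]
    · rw [Finsupp.sum_smul_index' (fun _ => rfl), ← Finsupp.smul_sum, ← hf2]

/-- Components of different types are orthogonal. -/
theorem orth (h : IsPol z Q) {k l : ℤ} (hkl : k ≠ l) {x y : C → ℂ} (hx : z *ᵥ x = (k : ℂ) • x)
    (hy : z *ᵥ y = (l : ℂ) • y) : x ⬝ᵥ (cQ Q *ᵥ cj y) = 0 := by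
  have h1 : z *ᵥ cj y = -((l : ℂ) • cj y) := by
    have h2 := cj_mulVec z y
    rw [hy, h.real, cj_smul, neg_mulVec] at h2
    have h3 : starRingEnd ℂ (l : ℂ) = (l : ℂ) := by simp
    rw [h3] at h2
    rw [h2, neg_neg]
  have h2 : x ⬝ᵥ ((zᵀ * cQ Q + cQ Q * z) *ᵥ cj y) = 0 := by
    rw [h.skew, zero_mulVec, dotProduct_zero]
  rw [add_mulVec, dotProduct_add, ← mulVec_mulVec, ← mulVec_mulVec, h1, mulVec_neg, mulVec_smul,
    dotProduct_mulVec x zᵀ, vecMul_transpose, hx, smul_dotProduct, dotProduct_neg,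
    dotProduct_smul] at h2
  have h3 : ((k : ℂ) - l) * (x ⬝ᵥ (cQ Q *ᵥ cj y)) = 0 := by
    simp only [smul_eq_mul] at h2
    linear_combination h2
  refine (mul_eq_zero.1 h3).resolve_left fun h4 => hkl ?_
  exact_mod_cast sub_eq_zero.1 h4

variable (h : IsPol z Q) (W : (C → ℂ) →ₗ[ℂ] (C → ℂ))
  (hW : ∀ (k : ℤ) (x : C → ℂ), z *ᵥ x = (k : ℂ) • x → W x = Complex.I ^ k • x)

/-- The Hermitian form. -/
def hf (Q : Matrix C C ℚ) (W : (C → ℂ) →ₗ[ℂ] (C → ℂ)) (x y : C → ℂ) : ℂ :=
  W x ⬝ᵥ (cQ Q *ᵥ cj y)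

theorem hf_add_left (x x' y : C → ℂ) : hf Q W (x + x') y = hf Q W x y + hf Q W x' y := by
  unfold hf
  rw [map_add, add_dotProduct]

theorem hf_smul_left (a : ℂ) (x y : C → ℂ) : hf Q W (a • x) y = a * hf Q W x y := by
  unfold hf
  rw [map_smul, smul_dotProduct, smul_eq_mul]

theorem hf_add_right (x y y' : C → ℂ) : hf Q W x (y + y') = hf Q W x y + hf Q W x y' := by
  unfold hf
  rw [cj_add, mulVec_add, dotProduct_add]

theorem hf_smul_right (a : ℂ) (x y : C → ℂ) : hf Q W x (a • y) = starRingEnd ℂ a * hf Q W x y := by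
  unfold hf
  rw [cj_smul, mulVec_smul, dotProduct_smul, smul_eq_mul]

include h hW in
theorem hf_pos {x : C → ℂ} (hx : x ≠ 0) : ∃ t : ℝ, 0 < t ∧ hf Q W x x = t := by
  classical
  obtain ⟨f, hf1, hf2⟩ := exists_dec h x
  have h1 : ∀ k, ∃ t : ℝ, 0 ≤ t ∧ (f k ≠ 0 → 0 < t) ∧ hf Q W (f k) (f k) = t := by
    intro k
    by_cases h0 : f k = 0
    · refine ⟨0, le_rfl, fun h1 => absurd h0 h1, ?_⟩
      rw [h0]
      simp [hf]
    · obtain ⟨t, ht, ht2⟩ := h.pos k (f k) h0 (hf1 k)
      refine ⟨t, ht.le, fun _ => ht, ?_⟩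
      rw [← ht2]
      unfold hf
      rw [hW k _ (hf1 k), smul_dotProduct, smul_eq_mul]
      rfl
  choose t ht0 ht1 ht2 using h1
  have hL : ∀ (s : Finset ℤ) (y : C → ℂ), hf Q W (∑ k ∈ s, f k) y = ∑ k ∈ s, hf Q W (f k) y := by
    intro s y
    induction s using Finset.induction_on with
    | empty => simp [hf]
    | insert a s ha ih => rw [Finset.sum_insert ha, Finset.sum_insert ha, hf_add_left, ih]
  have hR : ∀ (s : Finset ℤ) (y : C → ℂ), hf Q W y (∑ k ∈ s, f k) = ∑ k ∈ s, hf Q W y (f k) := by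
    intro s y
    induction s using Finset.induction_on with
    | empty =>
      have h3 : cj (0 : C → ℂ) = 0 := by
        funext c
        simp [cj]
      simp [hf, h3]
    | insert a s ha ih => rw [Finset.sum_insert ha, Finset.sum_insert ha, hf_add_right, ih]
  have h2 : hf Q W x x = ((∑ k ∈ f.support, t k : ℝ) : ℂ) := by
    have h3 : x = ∑ k ∈ f.support, f k := hf2
    rw [h3, hL, Complex.ofReal_sum]
    refine Finset.sum_congr rfl fun k hk => ?_
    rw [hR, Finset.sum_eq_single k, ht2]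
    · intro l _ hlk
      unfold hf
      rw [hW k _ (hf1 k), smul_dotProduct, orth h (Ne.symm hlk) (hf1 k) (hf1 l), smul_zero]
    · intro h4
      exact absurd hk h4
  refine ⟨_, ?_, h2⟩
  obtain ⟨k, hk⟩ : ∃ k, f k ≠ 0 := by
    by_contra hcon
    push Not at hcon
    apply hx
    rw [hf2]
    exact Finset.sum_eq_zero fun k _ => hcon k
  exact Finset.sum_pos' (fun k _ => ht0 k) ⟨k, Finsupp.mem_support_iff.2 hk, ht1 k hk⟩

include h hW in
theorem hf_real (x : C → ℂ) : starRingEnd ℂ (hf Q W x x) = hf Q W x x := by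
  by_cases hx : x = 0
  · rw [hx]
    simp [hf]
  · obtain ⟨t, _, ht⟩ := hf_pos h W hW hx
    rw [ht, Complex.conj_ofReal]

include h hW in
theorem hf_symm (x y : C → ℂ) : starRingEnd ℂ (hf Q W y x) = hf Q W x y := by
  have h1 := hf_real h W hW (x + y)
  have h2 := hf_real h W hW (x + Complex.I • y)
  have h3 := hf_real h W hW x
  have h4 := hf_real h W hW y
  simp only [hf_add_left, hf_add_right, hf_smul_left, hf_smul_right, map_add, map_mul,
    Complex.conj_I, map_neg] at h1 h2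
  rw [h3, h4] at h1 h2
  have h5 : Complex.I * Complex.I = -1 := Complex.I_mul_I
  have h6 : Complex.I * (starRingEnd ℂ (hf Q W x y) + hf Q W x y -
      (hf Q W y x + starRingEnd ℂ (hf Q W y x))) = 0 := by linear_combination h2
  have h7 := (mul_eq_zero.1 h6).resolve_left Complex.I_ne_zero
  linear_combination (h1 - h7) / 2

include h hW in
/-- The inner product. -/
@[instance_reducible]
def core : InnerProductSpace.Core ℂ (C → ℂ) where
  inner x y := hf Q W y x
  conj_inner_symm x y := hf_symm h W hW y x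
  re_inner_nonneg x := by
    by_cases hx : x = 0
    · rw [hx]
      simp [hf]
    · obtain ⟨t, h1, ht⟩ := hf_pos h W hW hx
      rw [ht]
      exact h1.le
  add_left x y w := hf_add_right W w x y
  smul_left x y a := hf_smul_right W a y x
  definite x hx := by
    by_contra h0
    obtain ⟨t, h1, ht⟩ := hf_pos h W hW h0
    rw [ht] at hx
    exact h1.ne' (by exact_mod_cast hx)

theorem trace_ne {E : Type*} [AddCommGroup E] [Module ℂ E] [FiniteDimensional ℂ E]
    (c : InnerProductSpace.Core ℂ E) {M M' : Module.End ℂ E}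
    (hadj : ∀ x y, c.inner (M x) y = c.inner x (M' y)) (hM : M ≠ 0) :
    LinearMap.trace ℂ E (M * M') ≠ 0 := by
  intro h0
  let _ : NormedAddCommGroup E := @InnerProductSpace.Core.toNormedAddCommGroup ℂ E _ _ _ c
  let _ : InnerProductSpace ℂ E := InnerProductSpace.ofCore c.toCore
  have hadj' : ∀ x y : E, inner ℂ (M x) y = inner ℂ x (M' y) := hadj
  let b := stdOrthonormalBasis ℂ E
  rw [LinearMap.trace_eq_sum_inner _ b] at h0
  have h1 : ∀ i, inner ℂ (b i) ((M * M') (b i)) = ((‖M' (b i)‖ ^ 2 : ℝ) : ℂ) := by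
    intro i
    rw [Module.End.mul_apply, ← inner_conj_symm, hadj', inner_self_eq_norm_sq_to_K, map_pow]
    simp
  have h2 : ∑ i, ‖M' (b i)‖ ^ 2 = 0 := by
    have h3 : ((∑ i, ‖M' (b i)‖ ^ 2 : ℝ) : ℂ) = 0 := by
      rw [← h0, Complex.ofReal_sum]
      exact Finset.sum_congr rfl fun i _ => (h1 i).symm
    exact_mod_cast h3
  have h3 : ∀ i, M' (b i) = 0 := by
    intro i
    have h4 := (Finset.sum_eq_zero_iff_of_nonneg fun i _ => sq_nonneg _).1 h2 i (Finset.mem_univ i)
    exact norm_eq_zero.1 (pow_eq_zero_iff (two_ne_zero)|>.1 h4)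
  have h4 : M' = 0 := b.toBasis.ext fun i => by
    rw [OrthonormalBasis.coe_toBasis, h3, LinearMap.zero_apply]
  apply hM
  ext x
  have h5 := hadj' x (M x)
  rw [h4, LinearMap.zero_apply, inner_zero_right] at h5
  rw [LinearMap.zero_apply]
  exact inner_self_eq_zero.1 h5

include h in
/-- **Positivity.** -/
theorem tr_ne {M : Matrix C C ℂ} {μ : ℂ} (hk : z * M - M * z = μ • M)
    (hM : Mᵀ * cQ Q + cQ Q * M = 0) (h0 : M ≠ 0) :
    trace (M * M.map (starRingEnd ℂ)) ≠ 0 := by
  classical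
  obtain ⟨W, hW⟩ := exists_weil h
  have hzM : ∀ (c : ℂ) (x : C → ℂ), z *ᵥ x = c • x → z *ᵥ (M *ᵥ x) = (c + μ) • (M *ᵥ x) := by
    intro c x hx
    have h1 : z * M = M * z + μ • M := by rw [← hk, add_sub_cancel]
    rw [mulVec_mulVec, h1, add_mulVec, ← mulVec_mulVec, hx, mulVec_smul, smul_mulVec, add_smul]
  obtain ⟨k, rfl⟩ : ∃ k : ℤ, μ = k := by
    have h1 : ∃ (l : ℤ) (x : C → ℂ), z *ᵥ x = (l : ℂ) • x ∧ M *ᵥ x ≠ 0 := by
      by_contra hcon
      push Not at hcon
      apply h0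
      have h2 : ∀ x, M *ᵥ x = 0 := by
        intro x
        have h3 := h.dec x
        have h4 : Submodule.span ℂ {y | ∃ k : ℤ, z *ᵥ y = (k : ℂ) • y} ≤
            LinearMap.ker (Matrix.mulVecLin M) := by
          refine Submodule.span_le.2 ?_
          rintro y ⟨l, hl⟩
          exact hcon l y hl
        exact h4 h3
      ext i j
      have h3 := congrFun (h2 (Pi.single j 1)) i
      rwa [mulVec_single_one] at h3
    obtain ⟨l, x, hx, hMx⟩ := h1
    obtain ⟨m, hm⟩ := eig_int h (hzM _ _ hx) hMx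
    refine ⟨m - l, ?_⟩
    push_cast
    rw [← hm]
    ring
  have hWM : ∀ x, W (M *ᵥ x) = Complex.I ^ k • (M *ᵥ (W x)) := by
    intro x
    have h3 := h.dec x
    have h4 : Submodule.span ℂ {y | ∃ k : ℤ, z *ᵥ y = (k : ℂ) • y} ≤
        LinearMap.eqLocus (W.comp (Matrix.mulVecLin M))
          (Complex.I ^ k • (Matrix.mulVecLin M).comp W) := by
      refine Submodule.span_le.2 ?_
      rintro y ⟨l, hl⟩
      change W (M *ᵥ y) = Complex.I ^ k • (M *ᵥ (W y))
      have h5 := hzM _ _ hl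
      rw [hW l y hl, hW (l + k) (M *ᵥ y) (by push_cast; exact h5), mulVec_smul, smul_smul,
        zpow_add₀ Complex.I_ne_zero, mul_comm]
    exact h4 h3
  have hadj : ∀ x y : C → ℂ, (core h W hW).inner (Matrix.mulVecLin
      (-starRingEnd ℂ (Complex.I ^ k) • M.map (starRingEnd ℂ)) x) y =
      (core h W hW).inner x (Matrix.mulVecLin M y) := by
    intro x y
    change hf Q W y (_ *ᵥ x) = hf Q W (M *ᵥ y) x
    unfold hf
    rw [hWM, smul_mulVec, cj_smul, cj_mulVec]
    have h1 : (M.map (starRingEnd ℂ)).map (starRingEnd ℂ) = M := by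
      ext i j
      simp
    rw [h1, map_neg, Complex.conj_conj]
    have h2 : (M *ᵥ W y) ⬝ᵥ (cQ Q *ᵥ cj x) = -(W y ⬝ᵥ (cQ Q *ᵥ (M *ᵥ cj x))) := by
      have h3 : W y ⬝ᵥ ((Mᵀ * cQ Q + cQ Q * M) *ᵥ cj x) = 0 := by
        rw [hM, zero_mulVec, dotProduct_zero]
      rw [add_mulVec, dotProduct_add, ← mulVec_mulVec, ← mulVec_mulVec,
        dotProduct_mulVec (W y) Mᵀ, vecMul_transpose] at h3
      exact eq_neg_of_add_eq_zero_left h3
    rw [smul_dotProduct, h2, mulVec_smul, dotProduct_smul]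
    simp
  have h1 : (Matrix.mulVecLin (-starRingEnd ℂ (Complex.I ^ k) • M.map (starRingEnd ℂ)) :
      Module.End ℂ (C → ℂ)) ≠ 0 := by
    intro h2
    apply h0
    have h3 : (-starRingEnd ℂ (Complex.I ^ k) • M.map (starRingEnd ℂ)) = 0 := by
      ext i j
      have h4 := congrFun (LinearMap.congr_fun h2 (Pi.single j 1)) i
      rw [Matrix.mulVecLin_apply, mulVec_single_one] at h4
      exact h4
    have h5 : M.map (starRingEnd ℂ) = 0 := by
      exact (smul_eq_zero.1 h3).resolve_left fun h6 =>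
        (map_ne_zero (starRingEnd ℂ)).2 (zpow_ne_zero _ Complex.I_ne_zero) (neg_eq_zero.1 h6)
    ext i j
    have h6 := congrFun (congrFun h5 i) j
    rw [Matrix.map_apply, Matrix.zero_apply] at h6
    exact (map_eq_zero _).1 h6
  have h2 := trace_ne (core h W hW) hadj h1
  intro h3
  apply h2
  have h4 : (Matrix.mulVecLin (-starRingEnd ℂ (Complex.I ^ k) • M.map (starRingEnd ℂ)) :
      Module.End ℂ (C → ℂ)) * Matrix.mulVecLin M =
      Matrix.toLin' ((-starRingEnd ℂ (Complex.I ^ k) • M.map (starRingEnd ℂ)) * M) := by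
    rw [Matrix.toLin'_mul]
    rfl
  rw [h4, Matrix.trace_toLin'_eq, smul_mul_assoc, trace_smul, trace_mul_comm, h3, smul_zero]

end

end Pool.Agent.Q43.GN
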