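import Mathlib
import Pool.Agent.TH131.GHC.Ind3
import Pool.Agent.Q43.GN.Ct
import Pool.Agent.Q43.GN.Pos

/-!
# Lie algebras of pairs of operators on two polarized Hodge structures
-/

set_option autoImplicit false
set_option linter.unusedSectionVars false

namespace Pool.Agent.Q43.GN

open Module Matrix Pool.Agent.H204R3.SP Pool.Agent.W437.HC Pool.Agent.W437.HD
  Pool.Agent.W437.HP Pool.Agent.TH131.GHC

open scoped ComplexOrder in
theorem eq_zero_of_star {B : Type*} [Fintype B] {v : B → ℂ} (h : v ⬝ᵥ star v = 0) : v = 0 :=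
  dotProduct_self_star_eq_zero.1 h

noncomputable section

section realform

variable {B : Type*} [Fintype B] [DecidableEq B] {D : Matrix B B ℂ}

/-- The polarization is positive. -/
theorem polH_pos (h : PolH D) {y : B → ℂ} (hy : y ⬝ᵥ ((h.O * (Complex.I • D)) *ᵥ cj y) = 0) :
    y = 0 := by
  obtain ⟨JC, hJC⟩ : ∃ JC : Matrix B B ℂ, JC = h.J.map (fun x : ℝ => (x : ℂ)) := ⟨_, rfl⟩
  obtain ⟨uC, huC⟩ : ∃ uC : Matrix B B ℂ, uC = h.u.map (fun x : ℝ => (x : ℂ)) := ⟨_, rfl⟩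
  have hD : Complex.I • D = JC := by
    rw [h.dj, smul_smul, ← hJC]
    simp
  have h1 : h.O * JCᵀ = -(uCᵀ * uC) := by
    have h2 := congrArg (fun M : Matrix B B ℝ => M.map Complex.ofRealHom) h.pos
    have h3 : (h.Om.map (fun x : ℚ => (x : ℝ)) * h.Jᵀ).map Complex.ofRealHom = h.O * JCᵀ := by
      ext i j
      simp [PolH.O, hJC, Matrix.mul_apply]
    have h4 : (-(h.uᵀ * h.u)).map Complex.ofRealHom = -(uCᵀ * uC) := by
      ext i j
      simp [huC, Matrix.mul_apply]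
    rw [← h3, ← h4]
    exact h2
  have hsp : JCᵀ * h.O + h.O * JC = 0 := by
    have h2 := h.sp
    change Dᵀ * h.O + h.O * D = 0 at h2
    rw [← hD, transpose_smul, smul_mul_assoc, mul_smul_comm, ← smul_add, h2, smul_zero]
  have hOt : h.Oᵀ = -h.O := by
    have h1 := congrArg (fun M : Matrix B B ℚ => M.map (fun x : ℚ => (x : ℂ))) h.tr
    ext i j
    have h2 := congrFun (congrFun h1 i) j
    simp only [Matrix.map_apply, transpose_apply, Matrix.neg_apply, Rat.cast_neg] at h2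
    exact h2
  have h2 : h.O * JC = (uC * h.O)ᵀ * (uC * h.O) := by
    have h3 : h.O * (h.O * JCᵀ) * h.O = h.O * JC := by
      rw [← mul_assoc, h.OO, mul_assoc, neg_one_mul, eq_neg_of_add_eq_zero_left hsp, neg_neg]
    rw [← h3, h1, transpose_mul, hOt]
    noncomm_ring
  have hreal : (uC * h.O).map (starRingEnd ℂ) = uC * h.O := by
    ext i j
    simp [PolH.O, huC, Matrix.mul_apply]
  have h6 : (uC * h.O) *ᵥ cj y = star ((uC * h.O) *ᵥ y) := by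
    have h7 := cj_mulVec (uC * h.O) y
    rw [hreal] at h7
    exact h7.symm
  rw [hD, h2, ← mulVec_mulVec, dotProduct_mulVec, vecMul_transpose, h6] at hy
  have h3 : (uC * h.O) *ᵥ y = 0 := eq_zero_of_star hy
  have hu : IsUnit uC := by
    have h4 := h.hu.map (Complex.ofRealHom.mapMatrix (m := B))
    rw [huC]
    exact h4
  obtain ⟨v, hv⟩ := hu
  have h4 : h.O *ᵥ y = 0 := by
    have h5 : ((↑v⁻¹ : Matrix B B ℂ) * (uC * h.O)) *ᵥ y = 0 := by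
      rw [← mulVec_mulVec, h3, mulVec_zero]
    rwa [← mul_assoc, ← hv, Units.inv_mul, one_mul] at h5
  have h5 : (h.O * h.O) *ᵥ y = 0 := by
    rw [← mulVec_mulVec, h4, mulVec_zero]
  rw [h.OO, neg_mulVec, one_mulVec, neg_eq_zero] at h5
  exact h5

end realform

section lie

variable {B C : Type*} [Fintype B] [DecidableEq B] [Fintype C] [DecidableEq C]
  {D D2 : Matrix B B ℂ} {z g : Matrix C C ℂ} {Q : Matrix C C ℚ}

/-- The trace form of the second components. -/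
def Tb (B C : Type*) [Fintype B] [DecidableEq B] [Fintype C] [DecidableEq C] :
    LinearMap.BilinForm ℂ (Matrix B B ℂ × Matrix C C ℂ) :=
  LinearMap.mk₂ ℂ (fun Y Y' => trace (Y.2 * Y'.2))
    (fun X Y Z => by rw [Prod.snd_add, add_mul, trace_add])
    (fun a X Y => by rw [Prod.smul_snd, smul_mul_assoc, trace_smul])
    (fun X Y Z => by rw [Prod.snd_add, mul_add, trace_add])
    (fun a X Y => by rw [Prod.smul_snd, mul_smul_comm, trace_smul])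

theorem Tb_apply (Y Y' : Matrix B B ℂ × Matrix C C ℂ) : Tb B C Y Y' = trace (Y.2 * Y'.2) := rfl

theorem Tb_br (T Y Y' : Matrix B B ℂ × Matrix C C ℂ) :
    Tb B C (T * Y - Y * T) Y' = -Tb B C Y (T * Y' - Y' * T) := by
  rw [Tb_apply, Tb_apply]
  change trace ((T.2 * Y.2 - Y.2 * T.2) * Y'.2) = -trace (Y.2 * (T.2 * Y'.2 - Y'.2 * T.2))
  have e1 : trace (T.2 * Y.2 * Y'.2) = trace (Y.2 * Y'.2 * T.2) := by
    rw [mul_assoc, trace_mul_comm]
  simp only [mul_sub, sub_mul, trace_sub, neg_sub, ← mul_assoc, e1]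

/-- A Lie algebra of pairs of operators. -/
structure IsL (D D2 : Matrix B B ℂ) (z g : Matrix C C ℂ) (Q : Matrix C C ℚ)
    (L : Submodule ℂ (Matrix B B ℂ × Matrix C C ℂ)) : Prop where
  le : ∀ Y ∈ L, Y.1 ∈ lieM D ℂ
  br : ∀ Y ∈ L, ∀ Y' ∈ L, Y * Y' - Y' * Y ∈ L
  conj : ∀ Y ∈ L, (Y.1.map (starRingEnd ℂ), Y.2.map (starRingEnd ℂ)) ∈ L
  inj : ∀ Y ∈ L, Y.2 = 0 → Y.1 = 0
  skew : ∀ Y ∈ L, Y.2ᵀ * cQ Q + cQ Q * Y.2 = 0
  comm : ∀ Y ∈ L, g * Y.2 = Y.2 * g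
  mem : (-D2, z) ∈ L

variable {N : Type*} [AddCommGroup N] [Module ℂ N] [FiniteDimensional ℂ N] [Nontrivial N]
  {L : Submodule ℂ (Matrix B B ℂ × Matrix C C ℂ)} (hL : IsL D D2 z g Q L) (h : PolH D)
  (hQ : IsPol z Q) {inc : N →ₗ[ℂ] (B → ℂ)} (hi : Function.Injective inc)
  {ρ : lieM D ℂ →ₗ[ℂ] End ℂ N} (hinc : ∀ (X : lieM D ℂ) u, X.1 *ᵥ inc u = inc (ρ X u))

include h hi hinc in
/-- The annihilator of a piece is stable under the complex conjugation. -/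
theorem kill_conj {X : Matrix B B ℂ} (hX : X ∈ lieM D ℂ) (h0 : ∀ u, X *ᵥ inc u = 0) (u : N) :
    X.map (starRingEnd ℂ) *ᵥ inc u = 0 := by
  have hX' : X.map (starRingEnd ℂ) ∈ lieM D ℂ := map_mem_aut hX (starRingEnd ℂ)
  refine polH_pos h ?_
  obtain ⟨y, hy⟩ : ∃ y, y = X.map (starRingEnd ℂ) *ᵥ inc u := ⟨_, rfl⟩
  rw [← hy]
  have h1 : X *ᵥ (D *ᵥ y) = 0 := by
    rw [hy, hinc ⟨_, hX'⟩, hinc ⟨D, D_mem D⟩]
    exact h0 _
  have h2 : (X.map (starRingEnd ℂ))ᵀ * h.O + h.O * X.map (starRingEnd ℂ) = 0 := h.lie_sp hX'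
  have hDr : D.map (starRingEnd ℂ) = -D := by
    rw [h.dj]
    ext i j
    simp
  have h3 : X.map (starRingEnd ℂ) *ᵥ ((Complex.I • D) *ᵥ cj y) = 0 := by
    have h4 := congrArg cj h1
    rw [cj_mulVec, cj_mulVec, hDr, neg_mulVec, mulVec_neg] at h4
    have h5 : cj (0 : B → ℂ) = 0 := by
      funext c
      simp [cj]
    rw [h5, neg_eq_zero] at h4
    rw [smul_mulVec, mulVec_smul, h4, smul_zero]
  have h6 : h.O * X.map (starRingEnd ℂ) = -((X.map (starRingEnd ℂ))ᵀ * h.O) :=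
    eq_neg_of_add_eq_zero_right h2
  have h7 : h.O *ᵥ (X.map (starRingEnd ℂ) *ᵥ ((Complex.I • D) *ᵥ cj y)) = 0 := by
    rw [h3, mulVec_zero]
  rw [mulVec_mulVec, h6, neg_mulVec, neg_eq_zero, ← mulVec_mulVec] at h7
  have h8 : inc u ⬝ᵥ ((X.map (starRingEnd ℂ))ᵀ *ᵥ (h.O *ᵥ ((Complex.I • D) *ᵥ cj y))) = 0 := by
    rw [h7, dotProduct_zero]
  rw [dotProduct_mulVec, vecMul_transpose, ← hy, mulVec_mulVec] at h8
  exact h8

/-- The elements which annihilate the piece. -/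
def kr (L : Submodule ℂ (Matrix B B ℂ × Matrix C C ℂ)) (inc : N →ₗ[ℂ] (B → ℂ)) :
    Submodule ℂ (Matrix B B ℂ × Matrix C C ℂ) where
  carrier := {Y | Y ∈ L ∧ ∀ u, Y.1 *ᵥ inc u = 0}
  zero_mem' := ⟨L.zero_mem, fun u => by rw [Prod.fst_zero, zero_mulVec]⟩
  add_mem' := by
    rintro Y Y' ⟨h1, h2⟩ ⟨h3, h4⟩
    exact ⟨L.add_mem h1 h3, fun u => by rw [Prod.fst_add, add_mulVec, h2, h4, add_zero]⟩
  smul_mem' := by
    rintro a Y ⟨h1, h2⟩
    exact ⟨L.smul_mem a h1, fun u => by rw [Prod.smul_fst, smul_mulVec, h2, smul_zero]⟩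

include hL hinc in
theorem kr_br {T Y : Matrix B B ℂ × Matrix C C ℂ} (hT : T ∈ L) (hY : Y ∈ kr L inc) :
    T * Y - Y * T ∈ kr L inc := by
  refine ⟨hL.br T hT Y hY.1, fun u => ?_⟩
  change (T.1 * Y.1 - Y.1 * T.1) *ᵥ inc u = 0
  rw [sub_mulVec, ← mulVec_mulVec, ← mulVec_mulVec, hY.2, mulVec_zero, hinc ⟨T.1, hL.le T hT⟩,
    hY.2, sub_zero]

include hL h hQ hi hinc in
/-- The trace form is nondegenerate on the annihilator. -/
theorem kr_nd {Y : Matrix B B ℂ × Matrix C C ℂ} (hY : Y ∈ kr L inc)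
    (h0 : ∀ Y' ∈ kr L inc, Tb B C Y Y' = 0) : Y = 0 := by
  obtain ⟨r, hr⟩ : ∃ r : Submodule ℂ (Matrix B B ℂ × Matrix C C ℂ), ∀ Y, Y ∈ r ↔
      Y ∈ kr L inc ∧ ∀ Y' ∈ kr L inc, Tb B C Y Y' = 0 :=
    ⟨{ carrier := {Y | Y ∈ kr L inc ∧ ∀ Y' ∈ kr L inc, Tb B C Y Y' = 0}
       zero_mem' := ⟨Submodule.zero_mem _, fun Y' _ => by rw [map_zero, LinearMap.zero_apply]⟩
       add_mem' := by
        rintro Y Y' ⟨h1, h2⟩ ⟨h3, h4⟩
        exact ⟨Submodule.add_mem _ h1 h3, fun Z hZ => by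
          rw [map_add, LinearMap.add_apply, h2 Z hZ, h4 Z hZ, add_zero]⟩
       smul_mem' := by
        rintro a Y ⟨h1, h2⟩
        exact ⟨Submodule.smul_mem _ a h1, fun Z hZ => by
          rw [map_smul, LinearMap.smul_apply, h2 Z hZ, smul_zero]⟩ }, fun Y => Iff.rfl⟩
  by_contra hne
  have hbot : r ≠ ⊥ := (Submodule.ne_bot_iff _).2 ⟨Y, (hr Y).2 ⟨hY, h0⟩, hne⟩
  let F : Unit → End ℂ (Matrix B B ℂ × Matrix C C ℂ) := fun _ =>
    LinearMap.mulLeft ℂ (-D2, z) - LinearMap.mulRight ℂ (-D2, z)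
  obtain ⟨w, hw, hw0, c, hc⟩ := exists_joint F (fun _ _ => rfl) r hbot (by
    intro _ u hu
    rw [hr] at hu ⊢
    refine ⟨kr_br hL hinc hL.mem hu.1, fun Y' hY' => ?_⟩
    change Tb B C ((-D2, z) * u - u * (-D2, z)) Y' = 0
    rw [Tb_br, hu.2 _ (kr_br hL hinc hL.mem hY'), neg_zero])
  have hw' := (hr w).1 hw
  have h1 : (-D2, z) * w - w * (-D2, z) = c () • w := hc ()
  have h2 : z * w.2 - w.2 * z = c () • w.2 := congrArg Prod.snd h1
  have h3 : w.2 ≠ 0 := fun h4 => hw0 (Prod.ext (hL.inj w hw'.1.1 h4) h4)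
  refine tr_ne hQ h2 (hL.skew w hw'.1.1) h3 ?_
  have h4 := hw'.2 (w.1.map (starRingEnd ℂ), w.2.map (starRingEnd ℂ)) ⟨hL.conj w hw'.1.1,
    fun u => kill_conj h hi hinc (hL.le w hw'.1.1) hw'.1.2 u⟩
  exact h4

/-- The orthogonal complement of the annihilator. -/
def ks (L : Submodule ℂ (Matrix B B ℂ × Matrix C C ℂ)) (inc : N →ₗ[ℂ] (B → ℂ)) :
    Submodule ℂ (Matrix B B ℂ × Matrix C C ℂ) :=
  L ⊓ (Tb B C).orthogonal (kr L inc)

theorem mem_ks {Y : Matrix B B ℂ × Matrix C C ℂ} :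
    Y ∈ ks L inc ↔ Y ∈ L ∧ ∀ Y' ∈ kr L inc, Tb B C Y' Y = 0 := Iff.rfl

theorem Tb_comm (Y Y' : Matrix B B ℂ × Matrix C C ℂ) : Tb B C Y Y' = Tb B C Y' Y := by
  rw [Tb_apply, Tb_apply, trace_mul_comm]

include hL hinc in
theorem ks_br {T Y : Matrix B B ℂ × Matrix C C ℂ} (hT : T ∈ L) (hY : Y ∈ ks L inc) :
    T * Y - Y * T ∈ ks L inc := by
  rw [mem_ks] at hY ⊢
  refine ⟨hL.br T hT Y hY.1, fun Y' hY' => ?_⟩
  rw [Tb_comm, Tb_br, Tb_comm, hY.2 _ (kr_br hL hinc hT hY'), neg_zero]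

include hL h hQ hi hinc in
theorem ks_sum {Y : Matrix B B ℂ × Matrix C C ℂ} (hY : Y ∈ L) :
    ∃ Y1 ∈ kr L inc, Y - Y1 ∈ ks L inc := by
  have hrefl : (Tb B C).IsRefl := by
    intro X Y h
    rwa [Tb_comm]
  have hdisj : Disjoint (kr L inc) ((Tb B C).orthogonal (kr L inc)) := by
    rw [Submodule.disjoint_def]
    intro X hX hX'
    refine kr_nd hL h hQ hi hinc hX fun Y hY => ?_
    have h1 := hX' Y hY
    change Tb B C Y X = 0 at h1
    rwa [Tb_comm] at h1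
  have hc : IsCompl (kr L inc) ((Tb B C).orthogonal (kr L inc)) :=
    (LinearMap.BilinForm.isCompl_orthogonal_iff_disjoint hrefl).2 hdisj
  have h1 : Y ∈ kr L inc ⊔ (Tb B C).orthogonal (kr L inc) := by
    rw [hc.sup_eq_top]
    trivial
  obtain ⟨Y1, hY1, Y2, hY2, hY12⟩ := Submodule.mem_sup.1 h1
  refine ⟨Y1, hY1, ?_⟩
  have h2 : Y - Y1 = Y2 := by
    rw [← hY12, add_sub_cancel_left]
  rw [h2]
  refine ⟨?_, hY2⟩
  rw [← h2]
  exact L.sub_mem hY hY1.1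

end lie

end

end Pool.Agent.Q43.GN
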