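import Mathlib
import Pool.Agent.Q43.GN.Sec

/-!
# Independence of Hodge structures with small Hodge numbers
-/

set_option autoImplicit false
set_option linter.unusedSectionVars false

namespace Pool.Agent.Q43.GN

open Module Matrix Pool.Agent.H204R3.SP Pool.Agent.W437.HC Pool.Agent.W437.HD
  Pool.Agent.W437.HP Pool.Agent.W437.HR Pool.Agent.W548.Odd Pool.Agent.TH131.GHC

noncomputable section

/-- The Hodge structure with the Hodge operator `zV` is given by a rational representation `φ` of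
the Lie algebra of the group of the automorphisms of the graded vector space with the grading `g`,
which maps the Hodge operator `zW` to `zV`. -/
structure IsRep {C' C : Type*} [Fintype C'] [DecidableEq C'] [Fintype C] [DecidableEq C]
    (g zW : Matrix C' C' ℂ) (zV : Matrix C C ℂ) (φ : Matrix C' C' ℂ →ₗ[ℂ] Matrix C C ℂ) : Prop where
  br : ∀ M N : Matrix C' C' ℂ, g * M = M * g → g * N = N * g →
    φ (M * N - N * M) = φ M * φ N - φ N * φ M
  gal : ∀ (σ : ℂ ≃+* ℂ) (M : Matrix C' C' ℂ), φ (M.map σ) = (φ M).map σ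
  z : φ zW = zV

variable {B C C' : Type} [Fintype B] [DecidableEq B] [Fintype C] [DecidableEq C]
  [Fintype C'] [DecidableEq C'] {κ : Type} [Fintype κ] [DecidableEq κ]
  {D : Matrix B B ℂ} {zV : Matrix C C ℂ} {g zW : Matrix C' C' ℂ} {Q : Matrix C' C' ℚ}
  {φ : Matrix C' C' ℂ →ₗ[ℂ] Matrix C C ℂ}

theorem opW_add (M M' : Matrix C C ℂ) (s : (κ → B) × C → ℂ) :
    opW κ B (M + M') s = opW κ B M s + opW κ B M' s := by
  funext p
  simp only [Pi.add_apply, opW_apply, Matrix.add_apply, add_mul, Finset.sum_add_distrib]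

theorem opW_smul (a : ℂ) (M : Matrix C C ℂ) (s : (κ → B) × C → ℂ) :
    opW κ B (a • M) s = a • opW κ B M s := by
  funext p
  simp only [Pi.smul_apply, opW_apply, Matrix.smul_apply, smul_eq_mul, mul_assoc, Finset.mul_sum]

theorem opW_zero (s : (κ → B) × C → ℂ) : opW κ B (0 : Matrix C C ℂ) s = 0 := by
  funext p
  rw [opW_apply]
  simp

/-- The pairs of operators which preserve a rational subspace. -/
def LL (D : Matrix B B ℂ) (g : Matrix C' C' ℂ) (Q : Matrix C' C' ℚ)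
    (φ : Matrix C' C' ℂ →ₗ[ℂ] Matrix C C ℂ) (S : Submodule ℚ ((κ → B) × C → ℚ)) :
    Submodule ℂ (Matrix B B ℂ × Matrix C' C' ℂ) where
  carrier := {Y | Y.1 ∈ cmpl D (stb D S) ∧ Y.2ᵀ * cQ Q + cQ Q * Y.2 = 0 ∧ g * Y.2 = Y.2 * g ∧
    ∀ s ∈ cxX S, opW κ B (φ Y.2) s - opD κ C Y.1 s ∈ cxX S}
  zero_mem' := by
    refine ⟨Submodule.zero_mem _, by simp, by simp, fun s _ => ?_⟩
    rw [Prod.snd_zero, Prod.fst_zero, map_zero, opW_zero, opD_zero, sub_zero]
    exact Submodule.zero_mem _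
  add_mem' := by
    rintro X Y ⟨h1, h2, h3, h4⟩ ⟨h5, h6, h7, h8⟩
    refine ⟨Submodule.add_mem _ h1 h5, ?_, ?_, fun s hs => ?_⟩
    · rw [Prod.snd_add, transpose_add, add_mul, mul_add]
      have h9 : X.2ᵀ * cQ Q + Y.2ᵀ * cQ Q + (cQ Q * X.2 + cQ Q * Y.2) =
        (X.2ᵀ * cQ Q + cQ Q * X.2) + (Y.2ᵀ * cQ Q + cQ Q * Y.2) := by abel
      rw [h9, h2, h6, add_zero]
    · rw [Prod.snd_add, mul_add, add_mul, h3, h7]
    · rw [Prod.snd_add, Prod.fst_add, map_add, opW_add, opD_add]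
      have h9 := Submodule.add_mem _ (h4 s hs) (h8 s hs)
      have h10 : opW κ B (φ X.2) s + opW κ B (φ Y.2) s - (opD κ C X.1 s + opD κ C Y.1 s) =
        opW κ B (φ X.2) s - opD κ C X.1 s + (opW κ B (φ Y.2) s - opD κ C Y.1 s) := by abel
      rwa [h10]
  smul_mem' := by
    rintro a Y ⟨h5, h6, h7, h8⟩
    refine ⟨Submodule.smul_mem _ a h5, ?_, ?_, fun s hs => ?_⟩
    · rw [Prod.smul_snd, transpose_smul, smul_mul_assoc, mul_smul_comm, ← smul_add, h6, smul_zero]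
    · rw [Prod.smul_snd, mul_smul_comm, smul_mul_assoc, h7]
    · rw [Prod.smul_snd, Prod.smul_fst, map_smul, opW_smul, opD_smul, ← smul_sub]
      exact Submodule.smul_mem _ a (h8 s hs)

theorem mem_LL {S : Submodule ℚ ((κ → B) × C → ℚ)} {Y : Matrix B B ℂ × Matrix C' C' ℂ} :
    Y ∈ LL D g Q φ S ↔ Y.1 ∈ cmpl D (stb D S) ∧ Y.2ᵀ * cQ Q + cQ Q * Y.2 = 0 ∧
      g * Y.2 = Y.2 * g ∧ ∀ s ∈ cxX S, opW κ B (φ Y.2) s - opD κ C Y.1 s ∈ cxX S := Iff.rfl

variable (h : PolH D) (hQ : IsPol zW Q) (hφ : IsRep g zW zV φ)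
  (hgr : ∀ σ : ℂ ≃+* ℂ, g.map σ = g) (hgz : g * zW = zW * g)
  {S : Submodule ℚ ((κ → B) × C → ℚ)}
  (hS : ∀ s ∈ cxX S, opD κ C D s + opW κ B zV s ∈ cxX S)

include h hφ hgr hS in
theorem LL_gal (σ : ℂ ≃+* ℂ) {Y : Matrix B B ℂ × Matrix C' C' ℂ} (hY : Y ∈ LL D g Q φ S) :
    (Y.1.map σ, Y.2.map σ) ∈ LL D g Q φ S := by
  rw [mem_LL] at hY ⊢
  obtain ⟨h1, h2, h3, h4⟩ := hY
  have hk : GalD D (stb D S) := stb_galD hS
  have hQσ : (cQ Q).map σ = cQ Q := by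
    ext i j
    simp [cQ]
  refine ⟨(h.cmpl_galD hk).gal σ _ h1, ?_, ?_, fun s hs => ?_⟩
  · have h5 := congrArg (fun M : Matrix C' C' ℂ => M.map σ) h2
    have h6 : (Y.2ᵀ * cQ Q + cQ Q * Y.2).map σ = (Y.2.map σ)ᵀ * cQ Q + cQ Q * Y.2.map σ := by
      rw [Matrix.map_add _ (map_add σ), Matrix.map_mul, Matrix.map_mul, hQσ]
      rfl
    rw [← h6]
    refine h5.trans ?_
    exact Matrix.map_zero _ (map_zero σ)
  · have h5 := congrArg (fun M : Matrix C' C' ℂ => M.map σ) h3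
    simp only [Matrix.map_mul, hgr] at h5
    exact h5
  · have h5 := cxX_aut σ (h4 _ (cxX_aut σ.symm hs))
    have h7 : (fun p => σ (σ.symm (s p))) = s := by
      funext p
      exact σ.apply_symm_apply _
    have h8 := opD_aut (κ := κ) (C := C) σ Y.1 (fun x => σ.symm (s x))
    have h9 := opW_aut (κ := κ) (B := B) σ (φ Y.2) (fun x => σ.symm (s x))
    rw [h7] at h8 h9
    rw [hφ.gal, ← h8, ← h9]
    have h10 : (fun p => σ ((opW κ B (φ Y.2) (fun x => σ.symm (s x)) -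
        opD κ C Y.1 (fun x => σ.symm (s x))) p)) =
        (fun p => σ (opW κ B (φ Y.2) (fun x => σ.symm (s x)) p)) -
          fun p => σ (opD κ C Y.1 (fun x => σ.symm (s x)) p) := by
      funext p
      exact map_sub σ _ _
    rw [← h10]
    exact h5

include h hQ hφ hgr hgz hS in
theorem isL {D2 : Matrix B B ℂ} (hD2 : D2 ∈ cmpl D (stb D S)) (hD1 : D - D2 ∈ stb D S) :
    IsL D D2 zW g Q (LL D g Q φ S) where
  le Y hY := hY.1.1
  br := by
    have hk : GalD D (stb D S) := stb_galD hS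
    rintro Y ⟨h1, h2, h3, h4⟩ Y' ⟨h1', h2', h3', h4'⟩
    refine ⟨?_, ?_, ?_, fun s hs => ?_⟩
    · exact h.cmpl_ideal hk h1 h1'.1
    · change (Y.2 * Y'.2 - Y'.2 * Y.2)ᵀ * cQ Q + cQ Q * (Y.2 * Y'.2 - Y'.2 * Y.2) = 0
      have e1 := eq_neg_of_add_eq_zero_left h2
      have e2 := eq_neg_of_add_eq_zero_left h2'
      rw [transpose_sub, transpose_mul, transpose_mul, sub_mul, mul_assoc, e1, mul_assoc, e2,
        mul_neg, mul_neg, ← mul_assoc, ← mul_assoc, e1, e2]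
      noncomm_ring
    · change g * (Y.2 * Y'.2 - Y'.2 * Y.2) = (Y.2 * Y'.2 - Y'.2 * Y.2) * g
      rw [mul_sub, sub_mul, ← mul_assoc, ← mul_assoc, h3, h3', mul_assoc, mul_assoc, h3, h3',
        mul_assoc, mul_assoc]
    · change opW κ B (φ (Y.2 * Y'.2 - Y'.2 * Y.2)) s -
        opD κ C (Y.1 * Y'.1 - Y'.1 * Y.1) s ∈ cxX S
      have e1 := h4 _ (h4' s hs)
      have e2 := h4' _ (h4 s hs)
      have e3 := Submodule.sub_mem _ e1 e2
      rw [hφ.br _ _ h3 h3', ← opW_br]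
      have e4 := opD_br (κ := κ) (C := C) Y'.1 Y.1 s
      rw [← e4]
      have e5 : opW κ B (φ Y.2) (opW κ B (φ Y'.2) s) - opW κ B (φ Y'.2) (opW κ B (φ Y.2) s) -
          (opD κ C Y'.1 (opD κ C Y.1 s) - opD κ C Y.1 (opD κ C Y'.1 s)) =
          (opW κ B (φ Y.2) (opW κ B (φ Y'.2) s - opD κ C Y'.1 s) -
            opD κ C Y.1 (opW κ B (φ Y'.2) s - opD κ C Y'.1 s)) -
          (opW κ B (φ Y'.2) (opW κ B (φ Y.2) s - opD κ C Y.1 s) -
            opD κ C Y'.1 (opW κ B (φ Y.2) s - opD κ C Y.1 s)) := by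
        rw [map_sub, map_sub, map_sub, map_sub, op_comm (D := Y.1) (D' := φ Y'.2),
          op_comm (D := Y'.1) (D' := φ Y.2)]
        abel
      rw [e5]
      exact e3
  conj Y hY := LL_gal h hφ hgr hS (starRingAut : ℂ ≃+* ℂ) hY
  inj := by
    have hk : GalD D (stb D S) := stb_galD hS
    rintro Y ⟨h1, h2, h3, h4⟩ h0
    refine h.cmpl_disj hk ⟨h1.1, fun s hs => ?_⟩ h1
    have h5 := h4 s hs
    rw [h0, map_zero, opW_zero, zero_sub] at h5
    exact (Submodule.neg_mem_iff _).1 h5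
  skew Y hY := hY.2.1
  comm Y hY := hY.2.2.1
  mem := by
    refine ⟨Submodule.neg_mem _ hD2, hQ.skew, hgz, fun s hs => ?_⟩
    change opW κ B (φ zW) s - opD κ C (-D2) s ∈ cxX S
    rw [hφ.z]
    have h1 := Submodule.sub_mem _ (hS s hs) (hD1.2 s hs)
    have h2 : opD κ C D s = opD κ C (D - D2) s + opD κ C D2 s := by
      rw [← opD_add, sub_add_cancel]
    have h3 : opD κ C (-D2) s = -opD κ C D2 s := by
      rw [← neg_one_smul ℂ D2, opD_smul, neg_one_smul]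
    rw [h2] at h1
    rw [h3]
    have h4 : opW κ B zV s - -opD κ C D2 s = opD κ C (D - D2) s + opD κ C D2 s +
        opW κ B zV s - opD κ C (D - D2) s := by abel
    rw [h4]
    exact h1

/-- The eigenspaces of the Hodge operator with a nonzero eigenvalue in the graded pieces have
dimension less than `r`. -/
def Small (g zW : Matrix C' C' ℂ) (r : ℕ) : Prop :=
  ∀ κ : ℂ, κ ≠ 0 → ∀ d : ℂ, finrank ℂ
      ↥(LinearMap.ker ((Matrix.toLin' zW : End ℂ (C' → ℂ)) - κ • 1) ⊓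
        LinearMap.ker ((Matrix.toLin' g : End ℂ (C' → ℂ)) - d • 1)) < r

section sys

variable {𝒜 : Type} [Fintype 𝒜] [DecidableEq 𝒜] {N : 𝒜 → Type} [∀ a, AddCommGroup (N a)]
  [∀ a, Module ℂ (N a)] [∀ a, FiniteDimensional ℂ (N a)] [∀ a, Nontrivial (N a)]

include h hQ hφ hgr hgz in
/-- **Independence** of a Hodge structure of weight one with large pieces and a Hodge structure with
small Hodge numbers. -/
theorem indep_sys (s : Sys (lieM D ℂ) (brL D) N) (inc : ∀ a, N a →ₗ[ℂ] (B → ℂ))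
    (prj : ∀ a, (B → ℂ) →ₗ[ℂ] N a) (hip : ∀ y, y = ∑ a, inc a (prj a y))
    (hinc : ∀ a (X : lieM D ℂ) u, X.1 *ᵥ inc a u = inc a (s.ρ a X u))
    (hinj : ∀ a, Function.Injective (inc a)) {r : ℕ} (hr : 3 ≤ r) (hsmall : Small g zW r)
    (hdim : ∀ a, prj a ≠ 0 → 2 * r ≤ finrank ℂ (N a)) : Indep D zV := by
  classical
  intro n S hS
  replace hS : ∀ s ∈ cxX S, opD (Fin n) C D s + opW (Fin n) B zV s ∈ cxX S := hS
  have hk : GalD D (stb D S) := stb_galD hS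
  obtain ⟨D1, hD1, hD2⟩ := h.cmpl_sum hk (D_mem D)
  set D2 := D - D1 with hD2'
  have hD12 : D - D2 = D1 := by rw [hD2', sub_sub_cancel]
  have hL : IsL D D2 zW g Q (LL D g Q φ S) :=
    isL h hQ hφ hgr hgz hS hD2 (by rw [hD12]; exact hD1)
  by_cases hD20 : D2 = 0
  · intro t ht
    have h1 := hD1.2 t ht
    rw [← hD12, hD20, sub_zero] at h1
    exact h1
  exfalso
  obtain ⟨a, ha0, u0, hu0⟩ : ∃ a, prj a ≠ 0 ∧ ∃ u, D2 *ᵥ inc a u ≠ 0 := by
    by_contra hcon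
    push Not at hcon
    apply hD20
    have h1 : ∀ y : B → ℂ, D2 *ᵥ y = 0 := by
      intro y
      conv_lhs => rw [hip y]
      rw [mulVec_sum]
      refine Finset.sum_eq_zero fun a _ => ?_
      by_cases h0 : prj a = 0
      · rw [h0, LinearMap.zero_apply, map_zero, mulVec_zero]
      · exact hcon a h0 _
    ext i j
    have h2 := congrFun (h1 (Pi.single j 1)) i
    rwa [mulVec_single_one] at h2
  -- the ideal of the first components
  let k : Submodule ℂ (Matrix B B ℂ) := (LL D g Q φ S).map (LinearMap.fst ℂ _ _)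
  have hkm : ∀ X, X ∈ k ↔ ∃ Y ∈ LL D g Q φ S, Y.1 = X := fun X => Iff.rfl
  have hkG : GalD D k := by
    refine ⟨?_, ?_, ?_⟩
    · rintro X hX
      obtain ⟨Y, hY, rfl⟩ := (hkm X).1 hX
      exact hL.le Y hY
    · rintro σ X hX
      obtain ⟨Y, hY, rfl⟩ := (hkm X).1 hX
      exact (hkm _).2 ⟨_, LL_gal h hφ hgr hS σ hY, rfl⟩
    · rintro X hX
      obtain ⟨Y, hY, rfl⟩ := (hkm X).1 hX
      have h1 := k.neg_mem ((hkm _).2 ⟨_, hL.br _ hL.mem Y hY, rfl⟩)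
      have h2 : D1 * Y.1 - Y.1 * D1 = 0 := h.cmpl_bracket hk hD1 hY.1
      have h3 : D * Y.1 - Y.1 * D = -((-D2, zW) * Y - Y * (-D2, zW)).1 := by
        change D * Y.1 - Y.1 * D = -(-D2 * Y.1 - Y.1 * -D2)
        have h4 : D = D1 + D2 := by rw [hD2', add_sub_cancel]
        have h5 : D * Y.1 - Y.1 * D = (D1 * Y.1 - Y.1 * D1) - (-D2 * Y.1 - Y.1 * -D2) := by
          rw [h4]
          noncomm_ring
        rw [h5, h2, zero_sub]
      rw [h3]
      exact h1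
  have hD2k : D2 ∈ k := by
    have h1 := k.neg_mem ((hkm _).2 ⟨_, hL.mem, rfl⟩)
    rwa [neg_neg] at h1
  have hfull : ∀ x y, ∃ Y ∈ LL D g Q φ S, ∀ u, Y.1 *ᵥ inc a u = inc a (EE (s.w a) x y u) := by
    intro x y
    have hρ0 : s.ρ a ⟨D2, hkG.le hD2k⟩ ≠ 0 := by
      intro h0
      apply hu0
      have h1 := hinc a ⟨D2, hkG.le hD2k⟩ u0
      rw [h0, LinearMap.zero_apply, map_zero] at h1
      exact h1
    have h1 := ideal_full (s.alt a) (s.nd a) (s.brk a) (s.sp a) (s.full a)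
      ((k.comap (lieM D ℂ).subtype).map (s.ρ a)) ?_
      (Submodule.mem_map_of_mem (f := s.ρ a) (p := k.comap (lieM D ℂ).subtype)
        (r := ⟨D2, hkG.le hD2k⟩) hD2k) (s.sp a _) hρ0 x y
    · obtain ⟨X, hX, hX2⟩ := h1
      obtain ⟨Y, hY, hY2⟩ := (hkm X.1).1 hX
      refine ⟨Y, hY, fun u => ?_⟩
      rw [hY2, hinc a X, hX2]
    · rintro Y _ ⟨W, hW, rfl⟩
      refine ⟨brL D Y W, ?_, s.brk a Y W⟩
      change Y.1 * W.1 - W.1 * Y.1 ∈ k
      have h2 := k.neg_mem (h.ideal hkG hW Y.2)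
      rwa [neg_sub] at h2
  -- the operator
  have hD1a : ∀ u, D1 *ᵥ inc a u = 0 := by
    intro u
    by_cases hu : u = 0
    · rw [hu, map_zero, mulVec_zero]
    obtain ⟨Y, hY, hY2⟩ := hfull u u
    have h2 : D1 * Y.1 - Y.1 * D1 = 0 := h.cmpl_bracket hk hD1 hY.1
    have h3 : ∀ v, s.ρ a ⟨D1, hD1.1⟩ (EE (s.w a) u u v) =
        EE (s.w a) u u (s.ρ a ⟨D1, hD1.1⟩ v) := by
      intro v
      apply hinj a
      rw [← hinc a ⟨D1, hD1.1⟩, ← hY2, ← hY2, ← hinc a ⟨D1, hD1.1⟩, mulVec_mulVec, mulVec_mulVec,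
        sub_eq_zero.1 h2]
    have h4 : EE (s.w a) (s.ρ a ⟨D1, hD1.1⟩ u) u = 0 := by
      have h5 := EE_bracket (s.sp a ⟨D1, hD1.1⟩) u u
      rw [EE_comm (s.w a) u (s.ρ a ⟨D1, hD1.1⟩ u), ← two_smul ℂ] at h5
      have h6 : s.ρ a ⟨D1, hD1.1⟩ * EE (s.w a) u u - EE (s.w a) u u * s.ρ a ⟨D1, hD1.1⟩ = 0 := by
        ext v
        rw [LinearMap.sub_apply, Module.End.mul_apply, Module.End.mul_apply, h3, sub_self]
        rfl
      rw [h6] at h5
      exact (smul_eq_zero.1 h5.symm).resolve_left two_ne_zero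
    have h5 := EE_eq_zero (s.alt a) (s.nd a) hu h4
    have h6 := hinc a ⟨D1, hD1.1⟩ u
    rw [h5, map_zero] at h6
    exact h6
  have hD2a : ∀ u, D2 *ᵥ inc a u = D *ᵥ inc a u := by
    intro u
    rw [hD2', sub_mulVec, hD1a, sub_zero]
  have hA : ∀ u, D2 *ᵥ (D2 *ᵥ inc a u) = inc a u := by
    intro u
    rw [hD2a, hinc a ⟨D, D_mem D⟩, hD2a, ← hinc a ⟨D, D_mem D⟩, mulVec_mulVec, h.dd, one_mulVec]
  obtain ⟨κ, hκ, d, hd⟩ := count_L hL h hQ (hinj a) (hinc a) (s.alt a) (s.nd a) (s.sp a) hfull hA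
    hgz hr (hdim a ha0)
  exact absurd hd (not_le.2 (hsmall κ hκ d))

end sys

end

end Pool.Agent.Q43.GN
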