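import Mathlib
import Pool.Agent.Q43.GN.Ind
import Pool.Agent.Q43.GH.Rot
import Pool.Agent.TH131.GHC.Fin
import Pool.Agent.H204R3.GP.MTDefs

/-!
# Products of abelian varieties with large pieces
-/

set_option autoImplicit false
set_option linter.unusedSectionVars false

namespace Pool.Agent.Q43.GN

open Module Matrix Pool.Agent.H204R3.SP Pool.Agent.W437.HC Pool.Agent.W437.HD
  Pool.Agent.W437.HP Pool.Agent.W437.HR Pool.Agent.W548.Odd Pool.Agent.TH131.GHC
  Pool.Agent.H204R3.GP Pool.Agent.H204R3.CM Pool.Agent.Q43.GH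

noncomputable section

/-- The matrices which commute with the Hodge Lie algebra are combinations of rational
endomorphisms. -/
theorem comm_span {R : Type} [Fintype R] [DecidableEq R] {D M : Matrix R R ℂ}
    (hM : ∀ X ∈ lieM D ℂ, M * X = X * M) :
    M ∈ Submodule.span ℂ {P : Matrix R R ℂ | ∃ P₀ : Matrix R R ℚ, P = cQ P₀ ∧ P * D = D * P} := by
  let c : Submodule ℂ (Matrix R R ℂ) :=
    { carrier := {M | ∀ σ : ℂ ≃+* ℂ, M * D.map σ = D.map σ * M}
      zero_mem' := fun σ => by simp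
      add_mem' := fun h1 h2 σ => by rw [add_mul, mul_add, h1 σ, h2 σ]
      smul_mem' := fun a M h1 σ => by rw [smul_mul_assoc, mul_smul_comm, h1 σ] }
  have hc : M ∈ c := fun σ => hM _ (map_mem_aut (D_mem D) (σ : ℂ →+* ℂ))
  refine rational_induction c ?_ (p := fun M => M ∈ Submodule.span ℂ {P : Matrix R R ℂ |
    ∃ P₀ : Matrix R R ℚ, P = cQ P₀ ∧ P * D = D * P}) ?_ (Submodule.zero_mem _)
    (fun X Y hX hY => Submodule.add_mem _ hX hY) (fun a X hX => Submodule.smul_mem _ a hX) M hc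
  · intro τ X hX σ
    have h1 := congrArg (fun M : Matrix R R ℂ => M.map τ) (hX (σ.trans τ.symm))
    simp only [Matrix.map_mul] at h1
    have h2 : (D.map (σ.trans τ.symm)).map τ = D.map σ := by
      ext i j
      simp
    rw [h2] at h1
    exact h1
  · intro u hu
    refine Submodule.subset_span ⟨u, rfl, ?_⟩
    have h1 := hu (RingEquiv.refl ℂ)
    have h2 : D.map (RingEquiv.refl ℂ) = D := by
      ext i j
      rfl
    rw [h2] at h1
    exact h1

section hodge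

variable {g : ℕ} {Z : Matrix (Fin g) (Fin g) ℂ}

/-- Rational matrices which commute with the Hodge operator are endomorphisms. -/
theorem isHodgeEnd_of_comm (hY : IsUnit (imM Z).det) {P : Matrix (Fin g ⊕ Fin g) (Fin g ⊕ Fin g) ℚ}
    (hP : cQ P * DZ Z = DZ Z * cQ P) : IsHodgeEnd (perOne Z) (Matrix.toLin' P) := by
  obtain ⟨PR, hPR⟩ : ∃ PR : Matrix (Fin g ⊕ Fin g) (Fin g ⊕ Fin g) ℝ,
    PR = P.map (fun x : ℚ => (x : ℝ)) := ⟨_, rfl⟩
  have hcom : PR * JR Z = JR Z * PR := by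
    have h1 : cQ P * (JR Z).map (fun x : ℝ => (x : ℂ)) =
        (JR Z).map (fun x : ℝ => (x : ℂ)) * cQ P := by
      have h2 := hP
      unfold DZ at h2
      rw [mul_smul_comm, smul_mul_assoc] at h2
      exact smul_right_injective _ (neg_ne_zero.2 Complex.I_ne_zero) h2
    ext i j
    have h3 := congrFun (congrFun h1 i) j
    simp only [Matrix.mul_apply, cQ, Matrix.map_apply] at h3
    simp only [Matrix.mul_apply, hPR, Matrix.map_apply]
    exact_mod_cast h3
  have hI : ∀ x : Fin g ⊕ Fin g → ℝ, perR Z (JR Z *ᵥ x) = Complex.I • perR Z x := by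
    intro x
    have h1 := perE_symm_smul hY (Real.pi / 2) (perR Z x)
    have h2 : Complex.cos ((Real.pi / 2 : ℝ) : ℂ) + Complex.sin ((Real.pi / 2 : ℝ) : ℂ) *
        Complex.I = Complex.I := by
      push_cast
      rw [Complex.cos_pi_div_two, Complex.sin_pi_div_two, zero_add, one_mul]
    have h3 : (perE hY).symm (perR Z x) = x := (perE hY).symm_apply_apply x
    rw [h2, Real.cos_pi_div_two, Real.sin_pi_div_two, zero_smul, one_smul, zero_add, h3,
      LinearEquiv.symm_apply_eq] at h1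
    exact h1.symm
  have hre : ∀ (c : ℂ) (v : Fin g → ℂ), c • v = c.re • v + c.im • (Complex.I • v) := by
    intro c v
    funext i
    simp only [Pi.smul_apply, Pi.add_apply, smul_eq_mul, Complex.real_smul]
    conv_lhs => rw [← Complex.re_add_im c]
    ring
  refine ⟨{ toFun := fun u => perR Z (PR *ᵥ (perE hY).symm u)
            map_add' := fun u v => by rw [map_add, mulVec_add, map_add]
            map_smul' := fun c u => ?_ }, fun w => ?_⟩
  · have h1 : (perE hY).symm (Complex.I • u) = JR Z *ᵥ (perE hY).symm u := by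
      rw [LinearEquiv.symm_apply_eq]
      change _ = perR Z _
      rw [hI]
      congr 1
      exact ((perE hY).apply_symm_apply u).symm
    rw [RingHom.id_apply, hre c u, map_add, map_smul, map_smul, h1, mulVec_add, mulVec_smul,
      mulVec_smul, mulVec_mulVec, hcom, ← mulVec_mulVec, map_add, map_smul, map_smul, hI,
      ← hre]
  · change perR Z (PR *ᵥ (perE hY).symm (perOne Z w)) = perOne Z (Matrix.toLin' P w)
    rw [perE_symm_perOne, perOne_eq]
    congr 1
    funext i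
    simp [hPR, mulVec, dotProduct]

/-- The complex combinations of the endomorphisms of the abelian variety with period matrix `Z`, as
operators on the complex homology. -/
def endC (Z : Matrix (Fin g) (Fin g) ℂ) : Submodule ℂ (Matrix (Fin g ⊕ Fin g) (Fin g ⊕ Fin g) ℂ) :=
  Submodule.span ℂ {M | ∃ P : (Fin g ⊕ Fin g → ℚ) →ₗ[ℚ] (Fin g ⊕ Fin g → ℚ),
    IsHodgeEnd (perOne Z) P ∧ M = cQ (LinearMap.toMatrix' P)}

theorem comm_endC (hY : IsUnit (imM Z).det) {M : Matrix (Fin g ⊕ Fin g) (Fin g ⊕ Fin g) ℂ}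
    (hM : ∀ X ∈ lieM (DZ Z) ℂ, M * X = X * M) : M ∈ endC Z := by
  refine Submodule.span_mono ?_ (comm_span hM)
  rintro P ⟨P₀, rfl, hP⟩
  exact ⟨Matrix.toLin' P₀, isHodgeEnd_of_comm hY hP, by rw [LinearMap.toMatrix'_toLin']⟩

end hodge

section prod

variable {ι : Type} [Fintype ι] [DecidableEq ι] {g : ι → ℕ}
  (Z : ∀ i, Matrix (Fin (g i)) (Fin (g i)) ℂ)
  {C C' : Type} [Fintype C] [DecidableEq C] [Fintype C'] [DecidableEq C']
  {zV : Matrix C C ℂ} {gr zW : Matrix C' C' ℂ} {Q : Matrix C' C' ℚ}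
  {φ : Matrix C' C' ℂ →ₗ[ℂ] Matrix C C ℂ}

/-- **Independence** for products. -/
theorem indep_prod (hZ : ∀ i, (Z i)ᵀ = Z i) (hpos : ∀ i, (imM (Z i)).PosDef)
    (hp : ∀ i, HasPcs (DZ (Z i))) {r : ℕ} (hr : 3 ≤ r)
    (hrk : ∀ i, ∀ M ∈ endC (Z i), M ≠ 0 → 2 * r ≤ M.rank)
    (hQ : IsPol zW Q) (hφ : IsRep gr zW zV φ) (hgr : ∀ σ : ℂ ≃+* ℂ, gr.map σ = gr)
    (hgz : gr * zW = zW * gr) (hsmall : Small gr zW r) : Indep (DZ (bigD ℂ Z)) zV := by
  classical
  set b := blocksOf Z hZ hpos with hb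
  have hnd := blocksOf_nondeg Z hZ hpos
  have hD2 : ∀ i, DZ (Z i) * DZ (Z i) = 1 := fun i => DZ_sq ((hpos i).isUnit.map Matrix.detMonoidHom)
  choose A hA1 hA2 N w π hst hsum hnt halt hnon hsp hful hπ using hp
  let s : Sys (lieM (DZ (bigD ℂ Z)) ℂ) (brL (DZ (bigD ℂ Z)))
      (N := fun a : (Σ i, A i) => ↥(N a.1 a.2)) :=
    { w := fun a => w a.1 a.2
      ρ := fun a => (rsN (N a.1 a.2) (hst a.1 a.2)) ∘ₗ b.blL a.1
      alt := fun a x => halt a.1 a.2 x
      nd := fun a x hx => hnon a.1 a.2 x hx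
      brk := fun a X Y => by
        rw [LinearMap.comp_apply, b.blL_brL, rsN_brL]
        rfl
      sp := fun a X => hsp a.1 a.2 (b.blL a.1 X)
      full := fun a x y => Blocks.full b a.1 (hnd a.1) (hD2 a.1) (N a.1 a.2) (w a.1 a.2)
        (hst a.1 a.2) (hnt a.1 a.2) (halt a.1 a.2) (hnon a.1 a.2) (hsp a.1 a.2)
        (hful a.1 a.2) x y }
  have hntn : ∀ a : (Σ i, A i), Nontrivial ↥(N a.1 a.2) := fun a => hnt a.1 a.2
  have hPinj : ∀ i (u : Fin (g i) ⊕ Fin (g i) → ℂ), cK ℂ (b.P i) *ᵥ ((cK ℂ (b.P i))ᵀ *ᵥ u) = u := by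
    intro i u
    rw [mulVec_mulVec, b.sameK, one_mulVec]
  refine indep_sys (polOf (bigD_symm hZ) (imM_bigD_posDef Z hpos)) hQ hφ hgr hgz s
    (fun a => (Matrix.mulVecLin (cK ℂ (b.P a.1))ᵀ) ∘ₗ (N a.1 a.2).subtype)
    (fun a => (π a.1 a.2) ∘ₗ (Matrix.mulVecLin (cK ℂ (b.P a.1)))) ?_ ?_ ?_ hr hsmall ?_
  · intro y
    have h1 : y = ∑ i, (cK ℂ (b.P i))ᵀ *ᵥ (cK ℂ (b.P i) *ᵥ y) := by
      conv_lhs => rw [← one_mulVec y, ← b.totK, sum_mulVec]
      exact Finset.sum_congr rfl fun i _ => (mulVec_mulVec _ _ _).symm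
    conv_lhs => rw [h1]
    rw [Fintype.sum_sigma]
    refine Finset.sum_congr rfl fun i _ => ?_
    conv_lhs => rw [hsum i (cK ℂ (b.P i) *ᵥ y)]
    rw [mulVec_sum]
    rfl
  · intro a X u
    change X.1 *ᵥ ((cK ℂ (b.P a.1))ᵀ *ᵥ (u : Fin (g a.1) ⊕ Fin (g a.1) → ℂ)) =
      (cK ℂ (b.P a.1))ᵀ *ᵥ (b.bl ℂ a.1 X.1 *ᵥ (u : Fin (g a.1) ⊕ Fin (g a.1) → ℂ))
    rw [mulVec_mulVec, mulVec_mulVec, b.mul_inc X.2]
  · rintro a u u' huu
    change (cK ℂ (b.P a.1))ᵀ *ᵥ (u : Fin (g a.1) ⊕ Fin (g a.1) → ℂ) =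
      (cK ℂ (b.P a.1))ᵀ *ᵥ (u' : Fin (g a.1) ⊕ Fin (g a.1) → ℂ) at huu
    have h1 := congrArg (fun v => cK ℂ (b.P a.1) *ᵥ v) huu
    simp only [hPinj] at h1
    exact Subtype.ext h1
  · intro a ha
    obtain ⟨i, a⟩ := a
    have hπ0 : π i a ≠ 0 := by
      intro h0
      apply ha
      change (π i a) ∘ₗ _ = 0
      rw [h0, LinearMap.zero_comp]
    let F : (Fin (g i) ⊕ Fin (g i) → ℂ) →ₗ[ℂ] (Fin (g i) ⊕ Fin (g i) → ℂ) :=
      (N i a).subtype ∘ₗ π i a
    have hF0 : LinearMap.toMatrix' F ≠ 0 := by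
      intro h0
      apply hπ0
      have h1 : F = 0 := by
        rwa [map_eq_zero_iff _ LinearMap.toMatrix'.injective] at h0
      refine LinearMap.ext fun y => Subtype.ext ?_
      exact LinearMap.congr_fun h1 y
    have hF1 : LinearMap.toMatrix' F ∈ endC (Z i) := by
      refine comm_endC ((hpos i).isUnit.map Matrix.detMonoidHom) fun X hX => ?_
      have h1 : F ∘ₗ Matrix.toLin' X = Matrix.toLin' X ∘ₗ F := by
        refine LinearMap.ext fun y => ?_
        exact hπ i a X hX y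
      have h2 := congrArg LinearMap.toMatrix' h1
      rwa [LinearMap.toMatrix'_comp, LinearMap.toMatrix'_comp, LinearMap.toMatrix'_toLin'] at h2
    have h1 := hrk i _ hF1 hF0
    refine h1.trans ?_
    have h2 : LinearMap.range (Matrix.mulVecLin (LinearMap.toMatrix' F)) ≤ N i a := by
      rintro _ ⟨y, rfl⟩
      have h3 : Matrix.mulVecLin (LinearMap.toMatrix' F) y = F y := by
        rw [← Matrix.toLin'_apply', Matrix.toLin'_toMatrix']
      rw [h3]
      exact (π i a y).2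
    exact Submodule.finrank_mono h2

end prod

end

end Pool.Agent.Q43.GN
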