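import Mathlib
import Pool.Agent.Q43.GN.Prod
import Pool.Agent.Q43.GH.Pcs

/-!
# Hodge structures generated by polarized Hodge structures with small Hodge numbers
-/

set_option autoImplicit false
set_option linter.unusedSectionVars false

namespace Pool.Agent.Q43.GN

open Module Matrix Pool.Agent.H204R3.SP Pool.Agent.W437.HC Pool.Agent.W437.HD
  Pool.Agent.W437.HP Pool.Agent.W437.HR Pool.Agent.W548.Odd Pool.Agent.TH131.GHC
  Pool.Agent.H204R3.GP Pool.Agent.H204R3.CM Pool.Agent.Q43.GH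

noncomputable section

section rep

variable {v w : ℕ} (W : Coh w)
  (φ : Matrix (Fin w) (Fin w) ℚ →ₗ[ℚ] Matrix (Fin v) (Fin v) ℚ)

/-- The grading operator. -/
def grM : Matrix (Fin w) (Fin w) ℂ := Matrix.diagonal fun b => (W.dg b : ℂ)

theorem grM_comm (M : Matrix (Fin w) (Fin w) ℂ) :
    grM W * M = M * grM W ↔ ∀ b b', W.dg b ≠ W.dg b' → M b b' = 0 := by
  constructor
  · intro h b b' hb
    have h1 := congrFun (congrFun h b) b'
    rw [grM, Matrix.diagonal_mul, Matrix.mul_diagonal] at h1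
    have h2 : ((W.dg b : ℂ) - W.dg b') * M b b' = 0 := by linear_combination h1
    refine (mul_eq_zero.1 h2).resolve_left fun h3 => hb ?_
    exact_mod_cast sub_eq_zero.1 h3
  · intro h
    ext b b'
    rw [grM, Matrix.diagonal_mul, Matrix.mul_diagonal]
    by_cases hb : W.dg b = W.dg b'
    · rw [hb, mul_comm]
    · rw [h b b' hb, mul_zero, zero_mul]

/-- The complexification of a linear map on matrices. -/
def cx : Matrix (Fin w) (Fin w) ℂ →ₗ[ℂ] Matrix (Fin v) (Fin v) ℂ where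
  toFun M := ∑ i, ∑ j, M i j • cQ (φ (Matrix.single i j 1))
  map_add' M N := by
    simp only [Matrix.add_apply, add_smul, Finset.sum_add_distrib]
  map_smul' a M := by
    simp only [Matrix.smul_apply, smul_eq_mul, mul_smul, Finset.smul_sum, RingHom.id_apply]

theorem cx_apply (M : Matrix (Fin w) (Fin w) ℂ) :
    cx φ M = ∑ i, ∑ j, M i j • cQ (φ (Matrix.single i j 1)) := rfl

theorem cQ_sum {ι : Type*} (s : Finset ι) (f : ι → Matrix (Fin v) (Fin v) ℚ) :
    cQ (∑ i ∈ s, f i) = ∑ i ∈ s, cQ (f i) := by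
  ext a b
  simp [cQ, Matrix.sum_apply]

theorem cQ_smul (q : ℚ) (M : Matrix (Fin v) (Fin v) ℚ) : cQ (q • M) = (q : ℂ) • cQ M := by
  ext a b
  simp [cQ]

theorem cx_cQ (M : Matrix (Fin w) (Fin w) ℚ) : cx φ (cQ M) = cQ (φ M) := by
  rw [cx_apply]
  conv_rhs => rw [Matrix.matrix_eq_sum_single M]
  rw [map_sum, cQ_sum]
  refine Finset.sum_congr rfl fun i _ => ?_
  rw [map_sum, cQ_sum]
  refine Finset.sum_congr rfl fun j _ => ?_
  have h1 : Matrix.single i j (M i j) = M i j • Matrix.single i j (1 : ℚ) := by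
    rw [Matrix.smul_single, smul_eq_mul, mul_one]
  rw [h1, map_smul, cQ_smul]
  rfl

theorem cQ_mul {n : ℕ} (M N : Matrix (Fin n) (Fin n) ℚ) : cQ (M * N) = cQ M * cQ N := by
  ext a b
  simp [cQ, Matrix.mul_apply]

theorem cQ_sub {n : ℕ} (M N : Matrix (Fin n) (Fin n) ℚ) : cQ (M - N) = cQ M - cQ N := by
  ext a b
  simp [cQ]

/-- The span of the rational graded matrices. -/
theorem graded_span {M : Matrix (Fin w) (Fin w) ℂ} (hM : grM W * M = M * grM W) :
    M ∈ Submodule.span ℂ {P | ∃ P₀ : Matrix (Fin w) (Fin w) ℚ,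
      (∀ b b', W.dg b ≠ W.dg b' → P₀ b b' = 0) ∧ P = cQ P₀} := by
  rw [grM_comm] at hM
  rw [Matrix.matrix_eq_sum_single M]
  refine Submodule.sum_mem _ fun i _ => Submodule.sum_mem _ fun j _ => ?_
  by_cases hij : W.dg i = W.dg j
  · have h1 : Matrix.single i j (M i j) = M i j • cQ (Matrix.single i j (1 : ℚ)) := by
      ext a b
      simp only [Matrix.single, cQ, Matrix.map_apply, Matrix.smul_apply, Matrix.of_apply]
      split_ifs <;> simp
    rw [h1]
    refine Submodule.smul_mem _ _ (Submodule.subset_span ⟨_, fun b b' hb => ?_, rfl⟩)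
    rw [Matrix.single_apply]
    refine if_neg ?_
    rintro ⟨rfl, rfl⟩
    exact hb hij
  · rw [hM i j hij, Matrix.single_zero]
    exact Submodule.zero_mem _

theorem span_graded {M : Matrix (Fin w) (Fin w) ℂ}
    (hM : M ∈ Submodule.span ℂ {P | ∃ P₀ : Matrix (Fin w) (Fin w) ℚ,
      (∀ b b', W.dg b ≠ W.dg b' → P₀ b b' = 0) ∧ P = cQ P₀}) (b b' : Fin w)
    (hb : W.dg b ≠ W.dg b') : M b b' = 0 := by
  induction hM using Submodule.span_induction with
  | mem P hP =>
    obtain ⟨P₀, hP1, rfl⟩ := hP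
    simp [cQ, hP1 b b' hb]
  | zero => rfl
  | add X Y _ _ h1 h2 => rw [Matrix.add_apply, h1, h2, add_zero]
  | smul a X _ h1 => rw [Matrix.smul_apply, h1, smul_zero]

theorem isRep_of (hbr : ∀ M N : Matrix (Fin w) (Fin w) ℚ,
    (∀ b b', W.dg b ≠ W.dg b' → M b b' = 0) → (∀ b b', W.dg b ≠ W.dg b' → N b b' = 0) →
      φ (M * N - N * M) = φ M * φ N - φ N * φ M) :
    IsRep (grM W) W.z (cx φ W.z) (cx φ) where
  br M N hM hN := by
    have h1 := graded_span W hM
    have h2 := graded_span W hN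
    induction h1 using Submodule.span_induction with
    | mem P hP =>
      obtain ⟨P₀, hP1, rfl⟩ := hP
      induction h2 using Submodule.span_induction with
      | mem P' hP' =>
        obtain ⟨P₁, hP2, rfl⟩ := hP'
        rw [← cQ_mul, ← cQ_mul, ← cQ_sub, cx_cQ, cx_cQ, cx_cQ, hbr P₀ P₁ hP1 hP2, cQ_sub, cQ_mul,
          cQ_mul]
      | zero => simp
      | add X Y hX hY h3 h4 =>
        have e1 : grM W * X = X * grM W := by
          rw [grM_comm]
          intro b b' hb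
          exact span_graded W hX b b' hb
        have e2 : grM W * Y = Y * grM W := by
          rw [grM_comm]
          intro b b' hb
          exact span_graded W hY b b' hb
        have h5 : cQ P₀ * (X + Y) - (X + Y) * cQ P₀ = (cQ P₀ * X - X * cQ P₀) +
          (cQ P₀ * Y - Y * cQ P₀) := by noncomm_ring
        rw [h5, map_add, h3 e1, h4 e2, map_add]
        noncomm_ring
      | smul a X hX h3 =>
        have e1 : grM W * X = X * grM W := by
          rw [grM_comm]
          intro b b' hb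
          exact span_graded W hX b b' hb
        have h5 : cQ P₀ * (a • X) - (a • X) * cQ P₀ = a • (cQ P₀ * X - X * cQ P₀) := by
          rw [mul_smul_comm, smul_mul_assoc, smul_sub]
        rw [h5, map_smul, h3 e1, map_smul, mul_smul_comm, smul_mul_assoc, smul_sub]
    | zero => simp
    | add X Y hX hY h3 h4 =>
      have e1 : grM W * X = X * grM W := by
        rw [grM_comm]
        intro b b' hb
        exact span_graded W hX b b' hb
      have e2 : grM W * Y = Y * grM W := by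
        rw [grM_comm]
        intro b b' hb
        exact span_graded W hY b b' hb
      have h5 : (X + Y) * N - N * (X + Y) = (X * N - N * X) + (Y * N - N * Y) := by noncomm_ring
      rw [h5, map_add, h3 e1, h4 e2, map_add]
      noncomm_ring
    | smul a X hX h3 =>
      have e1 : grM W * X = X * grM W := by
        rw [grM_comm]
        intro b b' hb
        exact span_graded W hX b b' hb
      have h5 : (a • X) * N - N * (a • X) = a • (X * N - N * X) := by
        rw [mul_smul_comm, smul_mul_assoc, smul_sub]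
      rw [h5, map_smul, h3 e1, map_smul, mul_smul_comm, smul_mul_assoc, smul_sub]
  gal σ M := by
    rw [cx_apply, cx_apply]
    ext a b
    simp only [Matrix.sum_apply, Matrix.map_apply, Matrix.smul_apply, smul_eq_mul, map_sum, map_mul,
      cQ, map_ratCast]
  z := rfl

end rep

section small

variable {w : ℕ} (W : Coh w)

/-- The component of the Hodge structure with the given label on which the Hodge operator is `k`. -/
def hodgeSpace (k : ℤ) (d : ℕ) : Submodule ℂ (Fin w → ℂ) where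
  carrier := {x | W.z *ᵥ x = (k : ℂ) • x ∧ ∀ b, W.dg b ≠ d → x b = 0}
  zero_mem' := ⟨by rw [mulVec_zero, smul_zero], fun _ _ => rfl⟩
  add_mem' := by
    rintro x y ⟨h1, h2⟩ ⟨h3, h4⟩
    exact ⟨by rw [mulVec_add, h1, h3, smul_add], fun b hb => by
      rw [Pi.add_apply, h2 b hb, h4 b hb, add_zero]⟩
  smul_mem' := by
    rintro a x ⟨h1, h2⟩
    exact ⟨by rw [mulVec_smul, h1, smul_comm], fun b hb => by
      rw [Pi.smul_apply, h2 b hb, smul_zero]⟩

theorem mem_hodgeSpace {k : ℤ} {d : ℕ} {x : Fin w → ℂ} : x ∈ hodgeSpace W k d ↔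
    W.z *ᵥ x = (k : ℂ) • x ∧ ∀ b, W.dg b ≠ d → x b = 0 := Iff.rfl

/-- `Q` is a polarization of `W`. -/
def IsPolarization (Q : Matrix (Fin w) (Fin w) ℚ) : Prop :=
  W.z.transpose * Q.map (fun x : ℚ => (x : ℂ)) + Q.map (fun x : ℚ => (x : ℂ)) * W.z = 0 ∧
  ∀ (k : ℤ) (x : Fin w → ℂ), x ≠ 0 → W.z *ᵥ x = (k : ℂ) • x → ∃ t : ℝ, 0 < t ∧
    Complex.I ^ k * (x ⬝ᵥ (Q.map (fun x : ℚ => (x : ℂ)) *ᵥ fun b => starRingEnd ℂ (x b))) = t

variable {W}

theorem isPol_of {Q : Matrix (Fin w) (Fin w) ℚ} (h : IsPolarization W Q) : IsPol W.z Q where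
  dec := W.decomp
  real := W.real
  skew := h.1
  pos := h.2

theorem small_of {Q : Matrix (Fin w) (Fin w) ℚ} (h : IsPolarization W Q) {r : ℕ} (hr : 0 < r)
    (hs : ∀ (k : ℤ) (d : ℕ), k ≠ 0 → finrank ℂ (hodgeSpace W k d) < r) :
    Small (grM W) W.z r := by
  intro κ hκ d
  by_contra hcon
  rw [not_lt] at hcon
  set U := LinearMap.ker ((Matrix.toLin' W.z : End ℂ (Fin w → ℂ)) - κ • 1) ⊓
        LinearMap.ker ((Matrix.toLin' (grM W) : End ℂ (Fin w → ℂ)) - d • 1) with hU
  have hmem : ∀ x, x ∈ U ↔ W.z *ᵥ x = κ • x ∧ ∀ b, (W.dg b : ℂ) * x b = d * x b := by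
    intro x
    rw [hU, Submodule.mem_inf, LinearMap.mem_ker, LinearMap.mem_ker, LinearMap.sub_apply,
      LinearMap.sub_apply, sub_eq_zero, sub_eq_zero, Matrix.toLin'_apply, Matrix.toLin'_apply]
    refine and_congr Iff.rfl ⟨fun h1 b => ?_, fun h1 => ?_⟩
    · have h2 := congrFun h1 b
      rw [grM, Matrix.mulVec_diagonal] at h2
      exact h2
    · funext b
      rw [grM, Matrix.mulVec_diagonal]
      exact h1 b
  have hne : U ≠ ⊥ := by
    intro h0
    rw [h0, finrank_bot] at hcon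
    omega
  obtain ⟨x, hx, hx0⟩ := (Submodule.ne_bot_iff _).1 hne
  obtain ⟨h1, h2⟩ := (hmem x).1 hx
  obtain ⟨k, rfl⟩ := eig_int (isPol_of h) h1 hx0
  obtain ⟨b, hb⟩ := Function.ne_iff.1 hx0
  have hd : d = (W.dg b : ℂ) := (mul_right_cancel₀ hb (h2 b)).symm
  have hle : U ≤ hodgeSpace W k (W.dg b) := by
    intro y hy
    obtain ⟨h3, h4⟩ := (hmem y).1 hy
    refine ⟨h3, fun b' hb' => ?_⟩
    have h5 := h4 b'
    rw [hd] at h5
    have h6 : ((W.dg b' : ℂ) - W.dg b) * y b' = 0 := by linear_combination h5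
    refine (mul_eq_zero.1 h6).resolve_left fun h7 => hb' ?_
    exact_mod_cast sub_eq_zero.1 h7
  have h3 := Submodule.finrank_mono hle
  have h4 := hs k (W.dg b) (by
    rintro rfl
    exact hκ (by simp))
  omega

end small

section centre

variable {g : ℕ} {Z : Matrix (Fin g) (Fin g) ℂ}

/-- Symmetric endomorphisms have real eigenvalues. -/
theorem real_of_symm (hZ : Zᵀ = Z) (hpos : (imM Z).PosDef)
    {P : Matrix (Fin g ⊕ Fin g) (Fin g ⊕ Fin g) ℚ} (hP : cQ P * DZ Z = DZ Z * cQ P)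
    (hs : Pᵀ * fromBlocks 0 1 (-1) 0 = fromBlocks 0 1 (-1) 0 * P) {z : ℂ}
    (hz : ((Matrix.toLin' P).charpoly.map (algebraMap ℚ ℂ)).IsRoot z) : z.im = 0 := by
  obtain ⟨h, hO⟩ : ∃ h : PolH (DZ Z), h.O = Om g ℂ := ⟨polOf hZ hpos, Om_map ℂ⟩
  have hroot : (cQ P).charpoly.IsRoot z := by
    rw [Matrix.charpoly_toLin'] at hz
    rw [cQ]
    have h1 : P.map (fun x : ℚ => (x : ℂ)) = P.map (algebraMap ℚ ℂ) := by
      ext i j
      simp
    rw [h1, Matrix.charpoly_map]
    exact hz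
  obtain ⟨x, hx⟩ : ∃ x, Module.End.HasEigenvector
      (Matrix.toLin' (cQ P) : End ℂ (Fin g ⊕ Fin g → ℂ)) z x := by
    refine Module.End.HasEigenvalue.exists_hasEigenvector ?_
    rw [Module.End.hasEigenvalue_iff_isRoot_charpoly, Matrix.charpoly_toLin']
    exact hroot
  have hx1 : cQ P *ᵥ x = z • x := by
    have h1 := Module.End.mem_eigenspace_iff.1 hx.1
    rwa [Matrix.toLin'_apply] at h1
  by_contra hne
  apply hx.2
  refine polH_pos h ?_
  obtain ⟨q, hq⟩ : ∃ q, q = x ⬝ᵥ ((h.O * (Complex.I • DZ Z)) *ᵥ cj x) := ⟨_, rfl⟩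
  rw [← hq]
  have hsC : (cQ P)ᵀ * h.O = h.O * cQ P := by
    rw [hO]
    have h1 := congrArg (fun M : Matrix (Fin g ⊕ Fin g) (Fin g ⊕ Fin g) ℚ =>
      M.map (Rat.castHom ℂ)) hs
    simp only [Matrix.map_mul] at h1
    have h2 : (fromBlocks 0 1 (-1) 0 : Matrix (Fin g ⊕ Fin g) (Fin g ⊕ Fin g) ℚ).map
        (Rat.castHom ℂ) = Om g ℂ := Om_map ℂ
    rw [h2] at h1
    exact h1
  have hreal : (cQ P).map (starRingEnd ℂ) = cQ P := by
    ext i j
    simp [cQ]
  have h1 : (cQ P *ᵥ x) ⬝ᵥ ((h.O * (Complex.I • DZ Z)) *ᵥ cj x) = z * q := by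
    rw [hx1, smul_dotProduct, ← hq, smul_eq_mul]
  have h2 : (cQ P *ᵥ x) ⬝ᵥ ((h.O * (Complex.I • DZ Z)) *ᵥ cj x) = starRingEnd ℂ z * q := by
    have h3 : cQ P *ᵥ cj x = starRingEnd ℂ z • cj x := by
      have h4 := cj_mulVec (cQ P) x
      rw [hreal, hx1, cj_smul] at h4
      exact h4.symm
    have h4 : (cQ P)ᵀ * (h.O * (Complex.I • DZ Z)) = (h.O * (Complex.I • DZ Z)) * cQ P := by
      rw [← mul_assoc, hsC, mul_assoc, mul_assoc, mul_smul_comm, hP, smul_mul_assoc]
    rw [← vecMul_transpose, ← dotProduct_mulVec, mulVec_mulVec, h4, ← mulVec_mulVec, h3,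
      mulVec_smul, dotProduct_smul, ← hq, smul_eq_mul]
  have h3 : (z - starRingEnd ℂ z) * q = 0 := by
    rw [sub_mul, ← h1, ← h2, sub_self]
  refine (mul_eq_zero.1 h3).resolve_left fun h4 => hne ?_
  exact Complex.conj_eq_iff_im.1 (sub_eq_zero.1 h4).symm

end centre

end

end Pool.Agent.Q43.GN
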