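import Mathlib
import Pool.Agent.Q43.GN.Ind

/-!
# Independence of sub-Hodge structures
-/

set_option autoImplicit false
set_option linter.unusedSectionVars false

namespace Pool.Agent.Q43.GN

open Module Matrix Pool.Agent.H204R3.SP Pool.Agent.W437.HC Pool.Agent.W437.HD
  Pool.Agent.W437.HP Pool.Agent.TH131.GHC

noncomputable section

variable {B C U : Type} [Fintype B] [DecidableEq B] [Fintype C] [DecidableEq C] [Fintype U]
  [DecidableEq U] {κ : Type} [Fintype κ] [DecidableEq κ] {K : Type} [Field K]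

/-- A rectangular matrix acting on the values. -/
def mW (κ B : Type) (A : Matrix U C K) : ((κ → B) × C → K) →ₗ[K] ((κ → B) × U → K) where
  toFun t := fun p => ∑ c, A p.2 c * t (p.1, c)
  map_add' t t' := by
    funext p
    simp only [Pi.add_apply, mul_add, Finset.sum_add_distrib]
  map_smul' r t := by
    funext p
    simp only [Pi.smul_apply, smul_eq_mul, RingHom.id_apply, Finset.mul_sum]
    exact Finset.sum_congr rfl fun c _ => by ring

theorem mW_apply (A : Matrix U C K) (t : (κ → B) × C → K) (p : (κ → B) × U) :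
    mW κ B A t p = ∑ c, A p.2 c * t (p.1, c) := rfl

theorem mW_mW {T : Type} [Fintype T] [DecidableEq T] (A : Matrix U C K) (A' : Matrix T U K)
    (t : (κ → B) × C → K) : mW κ B A' (mW κ B A t) = mW κ B (A' * A) t := by
  funext p
  simp only [mW_apply, Matrix.mul_apply, Finset.mul_sum, Finset.sum_mul]
  rw [Finset.sum_comm]
  exact Finset.sum_congr rfl fun i _ => Finset.sum_congr rfl fun j _ => by ring

theorem mW_one (t : (κ → B) × C → K) : mW κ B (1 : Matrix C C K) t = t := by
  funext p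
  rw [mW_apply, Finset.sum_eq_single p.2]
  · simp
  · intro c _ hc
    rw [Matrix.one_apply_ne (Ne.symm hc), zero_mul]
  · intro h
    exact absurd (Finset.mem_univ _) h

theorem opW_eq (M : Matrix C C ℂ) (t : (κ → B) × C → ℂ) : opW κ B M t = mW κ B M t := rfl

theorem mW_opD (A : Matrix U C ℂ) (X : Matrix B B ℂ) (t : (κ → B) × C → ℂ) :
    mW κ B A (opD κ C X t) = opD κ U X (mW κ B A t) := by
  refine ext_sl fun u => ?_
  have h1 : ∀ t : (κ → B) × C → ℂ, sl u (mW κ B A t) = ∑ c, A u c • sl c t := by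
    intro t
    funext I
    rw [sl_apply, mW_apply, Finset.sum_apply]
    rfl
  rw [sl_opD, h1, h1]
  have hX' : ∀ c : (κ → B) → ℂ, act X c = actR X c := fun c => rfl
  rw [hX', map_sum]
  refine Finset.sum_congr rfl fun c _ => ?_
  rw [map_smul, ← hX', sl_opD]

theorem mW_cst (A : Matrix U C ℚ) (t : (κ → B) × C → ℚ) :
    cstX (mW κ B A t) = mW κ B (A.map fun x : ℚ => (x : ℂ)) (cstX t) := by
  funext p
  simp only [cstX, mW_apply, Matrix.map_apply]
  push_cast
  rfl

theorem indep_sub {D : Matrix B B ℂ} {zV : Matrix C C ℂ} {zU : Matrix U U ℂ} (j : Matrix U C ℚ)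
    (l : Matrix C U ℚ) (hl : l * j = 1)
    (hj : zU * j.map (fun x : ℚ => (x : ℂ)) = j.map (fun x : ℚ => (x : ℂ)) * zV)
    (h : Indep D zU) : Indep D zV := by
  intro k S hS
  set J := mW (Fin k) B (j.map fun x : ℚ => (x : ℂ)) with hJ
  set L := mW (Fin k) B (l.map fun x : ℚ => (x : ℂ)) with hL
  have hLJ : ∀ t, L (J t) = t := by
    intro t
    have h1 : l.map (fun x : ℚ => (x : ℂ)) * j.map (fun x : ℚ => (x : ℂ)) = 1 := by
      have h2 := congrArg (fun M : Matrix C C ℚ => M.map (Rat.castHom ℂ)) hl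
      simp only [Matrix.map_mul] at h2
      rw [Matrix.map_one _ (map_zero _) (map_one _)] at h2
      exact h2
    rw [hJ, hL, mW_mW, h1, mW_one]
  have hLJq : ∀ t : (Fin k → B) × C → ℚ, mW (Fin k) B l (mW (Fin k) B j t) = t := by
    intro t
    rw [mW_mW, hl, mW_one]
  have h1 : ∀ z ∈ cxX S, J z ∈ cxX (S.map (mW (Fin k) B j)) := by
    have h2 : cxX S ≤ (cxX (S.map (mW (Fin k) B j))).comap J := by
      refine cxX_le fun t ht => ?_
      rw [Submodule.mem_comap, hJ, ← mW_cst]
      exact cstX_mem (Submodule.mem_map_of_mem ht)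
    exact h2
  have h2 : ∀ z ∈ cxX (S.map (mW (Fin k) B j)), L z ∈ cxX S ∧ J (L z) = z := by
    have h3 : cxX (S.map (mW (Fin k) B j)) ≤ (cxX S).comap L ⊓
        LinearMap.eqLocus (J ∘ₗ L) LinearMap.id := by
      refine cxX_le fun t ht => ?_
      obtain ⟨s, hs, rfl⟩ := ht
      have h4 : L (cstX (mW (Fin k) B j s)) = cstX s := by
        rw [mW_cst]
        exact hLJ _
      refine ⟨?_, ?_⟩
      · rw [SetLike.mem_coe, Submodule.mem_comap, h4]
        exact cstX_mem hs
      · change J (L (cstX (mW (Fin k) B j s))) = cstX (mW (Fin k) B j s)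
        rw [h4, mW_cst]
    intro z hz
    exact h3 hz
  have hW : ∀ t, J (opW (Fin k) B zV t) = opW (Fin k) B zU (J t) := by
    intro t
    rw [opW_eq, opW_eq, hJ, mW_mW, mW_mW, hj]
  have hD : ∀ t, J (opD (Fin k) C D t) = opD (Fin k) U D (J t) := fun t => mW_opD _ _ _
  have h3 : Stable (S.map (mW (Fin k) B j)) (opD (Fin k) U D + opW (Fin k) B zU) := by
    intro z hz
    obtain ⟨h4, h5⟩ := h2 z hz
    have h6 := h1 _ (hS _ h4)
    rw [LinearMap.add_apply, map_add, hW, hD, h5] at h6
    exact h6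
  intro z hz
  have h4 := (h2 _ (h k _ h3 _ (h1 z hz))).1
  rw [← hD, hLJ] at h4
  exact h4

end

end Pool.Agent.Q43.GN
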